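import Mathlib

/-!
# Random 0/1 matrices with independent entries and few different rows
-/

namespace Pool.Agent.LCB

open MeasureTheory ProbabilityTheory

/-- `X` is a random `N × N` matrix with entries in `{false, true}` and independent entries. The
probabilities are arbitrary numbers in `[0, 1]`, but the rows of probabilities have at most `K`
types: there are `K` vectors `p 1, ..., p K`, such that every row agrees with one of them up to an
error of at most `1 / n`, except in at most `N / n ^ 3` entries of the row. -/
structure IsTyped (K n : ℕ) {N : ℕ} {Ω : Type} [MeasurableSpace Ω] (μ : Measure Ω)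
    (X : Ω → Fin N → Fin N → Bool) : Prop where
  meas : ∀ i j, MeasurableSet {ω | X ω i j = true}
  indep : iIndepSet (fun e : Fin N × Fin N => {ω | X ω e.1 e.2 = true}) μ
  types : ∃ (t : Fin N → Fin K) (p : Fin K → Fin N → ℝ), ∀ i,
    n ^ 3 * Nat.card {j : Fin N // 1 / (n : ℝ) < |μ.real {ω | X ω i j = true} - p (t i) j|} ≤ N

/-- The matrix `A` has an `n × n` rectangle (`n` rows and `n` columns) of equal entries. -/
def HasRect {N : ℕ} (A : Fin N → Fin N → Bool) (n : ℕ) : Prop :=
  ∃ R C : Finset (Fin N), R.card = n ∧ C.card = n ∧ ∃ b : Bool, ∀ i ∈ R, ∀ j ∈ C, A i j = b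

/-- Every random `N × N` matrix with independent entries and at most `K` types of rows has an
`n × n` rectangle of equal entries with probability at least `1 - η`. -/
def HomT (K : ℕ) (η : ℝ) (N n : ℕ) : Prop :=
  ∀ (Ω : Type) [MeasurableSpace Ω] (μ : Measure Ω) [IsProbabilityMeasure μ]
    (X : Ω → Fin N → Fin N → Bool), IsTyped K n μ X → 1 - η ≤ μ.real {ω | HasRect (X ω) n}

/-- The bipartite Ramsey number for random matrices with at most `K` types of rows. -/
noncomputable def FT (K n : ℕ) : ℕ := sInf {N : ℕ | HomT K (1 / 2) N n}

/-- The bipartite Ramsey number `f n`. -/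
noncomputable def F (n : ℕ) : ℕ := sInf {N : ℕ | ∀ A : Fin N → Fin N → Bool, HasRect A n}

end Pool.Agent.LCB
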