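import Mathlib
import Pool.Agent.Helper37.NoisyB.Moment

/-!
# Moments of complete bipartite graphs in a weighted rectangular matrix of average `a`
-/

namespace Pool.Agent.LCB

open Finset Pool.Agent.Helper37.NoisyR Pool.Agent.Helper37.NoisyB

variable {V U : Type*} [Fintype V] [Fintype U] [DecidableEq V] [DecidableEq U]

omit [DecidableEq V] [DecidableEq U] in
theorem lc_TT_one [Nonempty V] {p : V → U → ℝ} (hp : ∀ i j, 0 ≤ p i j) {a : ℝ} (ha : 0 ≤ a)
    (havg : (Fintype.card V : ℝ) * Fintype.card U * a ≤ ∑ i, ∑ j, p i j) (l : ℕ) :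
    (Fintype.card V : ℝ) * (Fintype.card U * a) ^ l ≤ TT p 1 l := by
  rw [nb_TT_swap]
  unfold TT
  simp only [Fin.prod_univ_one]
  have key : ∀ l : ℕ, (Fintype.card V : ℝ) * (Fintype.card U * a) ^ l ≤
      ∑ i, (∑ j, p i j) ^ l := by
    intro l
    induction l with
    | zero => simp
    | succ l ih =>
      have h1 := nb_cheb (fun i => ∑ j, p i j) (fun i => sum_nonneg fun j _ => hp i j) l
      have hV : (0 : ℝ) < Fintype.card V := by exact_mod_cast Fintype.card_pos
      have h2 : (Fintype.card V : ℝ) * (Fintype.card U * a) ^ l *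
          ((Fintype.card V : ℝ) * Fintype.card U * a) ≤
          (∑ i, (∑ j, p i j) ^ l) * ∑ i, ∑ j, p i j :=
        mul_le_mul ih havg (by positivity)
          (sum_nonneg fun i _ => pow_nonneg (sum_nonneg fun j _ => hp i j) l)
      have h3 := h2.trans h1
      have h4 : (Fintype.card V : ℝ) * ((Fintype.card V : ℝ) * (Fintype.card U * a) ^ (l + 1)) ≤
          Fintype.card V * ∑ i, (∑ j, p i j) ^ (l + 1) := by
        refine le_trans (le_of_eq ?_) h3
        ring
      exact le_of_mul_le_mul_left h4 hV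
  have h := key l
  rw [← (Equiv.funUnique (Fin 1) V).sum_comp] at h
  exact h

omit [DecidableEq V] [DecidableEq U] in
theorem lc_TT_step [Nonempty V] [Nonempty U] {p : V → U → ℝ} (hp : ∀ i j, 0 ≤ p i j) {a : ℝ}
    (ha : 0 ≤ a)
    (havg : (Fintype.card V : ℝ) * Fintype.card U * a ≤ ∑ i, ∑ j, p i j) (k l : ℕ) :
    TT p k l * (Fintype.card V * a ^ l) ≤ TT p (k + 1) l := by
  have hU : (0 : ℝ) < Fintype.card U := by exact_mod_cast Fintype.card_pos
  have h1 := nb_cheb (fun y : Fin l → U => ∑ i, ∏ j, p i (y j))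
    (fun y => sum_nonneg fun i _ => prod_nonneg fun j _ => hp i _) k
  have h2 : (Fintype.card V : ℝ) * (Fintype.card U * a) ^ l ≤
      ∑ y : Fin l → U, ∑ i, ∏ j, p i (y j) := by
    have h3 := lc_TT_one hp ha havg l
    unfold TT at h3
    simpa only [pow_one] using h3
  have h4 : TT p k l * ((Fintype.card V : ℝ) * (Fintype.card U * a) ^ l) ≤
      (∑ y : Fin l → U, (∑ i, ∏ j, p i (y j)) ^ k) * ∑ y : Fin l → U, ∑ i, ∏ j, p i (y j) :=
    mul_le_mul_of_nonneg_left h2 (nb_TT_nonneg hp k l)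
  have h5 := h4.trans h1
  rw [Fintype.card_fun, Fintype.card_fin] at h5
  push_cast at h5
  have h6 : (Fintype.card U : ℝ) ^ l * (TT p k l * (Fintype.card V * a ^ l)) ≤
      (Fintype.card U : ℝ) ^ l * TT p (k + 1) l := by
    refine le_trans (le_of_eq ?_) h5
    rw [mul_pow]
    ring
  exact le_of_mul_le_mul_left h6 (by positivity)

omit [DecidableEq V] [DecidableEq U] in
theorem lc_TT_steps [Nonempty V] [Nonempty U] {p : V → U → ℝ} (hp : ∀ i j, 0 ≤ p i j) {a : ℝ}
    (ha : 0 ≤ a)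
    (havg : (Fintype.card V : ℝ) * Fintype.card U * a ≤ ∑ i, ∑ j, p i j) (k l r : ℕ) :
    TT p k l * (Fintype.card V * a ^ l) ^ r ≤ TT p (k + r) l := by
  induction r with
  | zero => simp
  | succ r ih =>
    have h1 := lc_TT_step hp ha havg (k + r) l
    rw [pow_succ, ← mul_assoc]
    refine le_trans ?_ h1
    exact mul_le_mul_of_nonneg_right ih (by positivity)

/-- The ratio bound. -/
theorem lc_ratio [Nonempty V] [Nonempty U] {p : V → U → ℝ} (hp : ∀ i j, 0 ≤ p i j)
    {c a A B : ℝ} (ha : 0 < a) (hpc : ∀ i j, p i j ≤ c)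
    (havg : (Fintype.card V : ℝ) * Fintype.card U * a ≤ ∑ i, ∑ j, p i j)
    (hV : (Fintype.card V : ℝ) = A) (hU : (Fintype.card U : ℝ) = B) {n : ℕ} (hn : 1 ≤ n)
    (hsA : 2 * ((n : ℝ) ^ 2 * (c / a) ^ n) ≤ A) (hsB : 2 * ((n : ℝ) ^ 2 * (c / a) ^ n) ≤ B)
    {r s : ℕ} (hr : r ≤ n) (hs : s ≤ n) :
    SS p (n - r) (n - s) ≤ 2 * ((n.descFactorial r : ℝ) * n.descFactorial s *
      ((a ^ n)⁻¹ / A) ^ r * ((a ^ (n - r))⁻¹ / B) ^ s) * SS p n n ∧ 0 < SS p n n := by
  have hA : 0 < A := by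
    rw [← hV]
    exact_mod_cast Fintype.card_pos
  have hB : 0 < B := by
    rw [← hU]
    exact_mod_cast Fintype.card_pos
  have havg' : (Fintype.card U : ℝ) * Fintype.card V * a ≤ ∑ j, ∑ i, p i j := by
    rw [sum_comm, mul_comm (Fintype.card U : ℝ)]
    exact havg
  -- the diagonal term
  have hTpos : 0 < TT p n n := by
    have h1 := lc_TT_steps hp ha.le havg 0 n n
    rw [zero_add] at h1
    refine lt_of_lt_of_le ?_ h1
    have h2 : TT p 0 n = (Fintype.card U : ℝ) ^ n := by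
      unfold TT
      simp
    rw [h2, hV, hU]
    positivity
  have hdiag : TT p n n / 2 ≤ (n.factorial : ℝ) * (n.factorial * SS p n n) := by
    obtain ⟨m, rfl⟩ : ∃ m, n = m + 1 := ⟨n - 1, by omega⟩
    have h1 := nb_SS_ge hp hpc m m
    have h2 := lc_TT_step hp ha.le havg m (m + 1)
    have h3 := lc_TT_step (p := fun u v => p v u) (fun u v => hp v u) ha.le havg' m (m + 1)
    rw [← nb_TT_swap p (m + 1) m, ← nb_TT_swap p (m + 1) (m + 1), hU] at h3
    rw [hV] at h2
    have hc : 0 ≤ c := by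
      obtain ⟨v⟩ := (inferInstance : Nonempty V)
      obtain ⟨u⟩ := (inferInstance : Nonempty U)
      exact (hp v u).trans (hpc v u)
    have h4 : ∀ t X : ℝ, 0 ≤ t → 0 < X → 2 * (((m + 1 : ℕ) : ℝ) ^ 2 * (c / a) ^ (m + 1)) ≤ X →
        t * (X * a ^ (m + 1)) ≤ TT p (m + 1) (m + 1) →
        ((m + 1 : ℕ) : ℝ) ^ 2 / 2 * c ^ (m + 1) * t ≤ TT p (m + 1) (m + 1) / 4 := by
      intro t X ht hX hsX ht2
      have h5 : ((m + 1 : ℕ) : ℝ) ^ 2 * (c / a) ^ (m + 1) * (t * (X * a ^ (m + 1))) ≤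
          X / 2 * TT p (m + 1) (m + 1) :=
        mul_le_mul (by linarith) ht2 (by positivity) (by positivity)
      have h6 : ((m + 1 : ℕ) : ℝ) ^ 2 * (c / a) ^ (m + 1) * (t * (X * a ^ (m + 1))) =
          X * (((m + 1 : ℕ) : ℝ) ^ 2 * c ^ (m + 1) * t) := by
        have : (c / a) ^ (m + 1) * a ^ (m + 1) = c ^ (m + 1) := by
          rw [← mul_pow, div_mul_cancel₀ _ ha.ne']
        calc ((m + 1 : ℕ) : ℝ) ^ 2 * (c / a) ^ (m + 1) * (t * (X * a ^ (m + 1)))
            = X * (((m + 1 : ℕ) : ℝ) ^ 2 * ((c / a) ^ (m + 1) * a ^ (m + 1)) * t) := by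
              ring
          _ = _ := by rw [this]
      rw [h6] at h5
      have h7 : X * (((m + 1 : ℕ) : ℝ) ^ 2 * c ^ (m + 1) * t) ≤
          X * (TT p (m + 1) (m + 1) / 2) := by linarith
      have h8 := le_of_mul_le_mul_left h7 hX
      linarith
    have h5 := h4 _ A (nb_TT_nonneg hp m (m + 1)) hA hsA h2
    have h6 := h4 _ B (nb_TT_nonneg hp (m + 1) m) hB hsB h3
    linarith
  have hSS : 0 < SS p n n := by
    by_contra hcon
    push Not at hcon
    have : (n.factorial : ℝ) * (n.factorial * SS p n n) ≤ 0 := by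
      rw [← mul_assoc]
      exact mul_nonpos_of_nonneg_of_nonpos (by positivity) hcon
    linarith
  refine ⟨?_, hSS⟩
  -- moments
  have h1 := lc_TT_steps hp ha.le havg (n - r) n r
  have h2 := lc_TT_steps (p := fun u v => p v u) (fun u v => hp v u) ha.le havg' (n - s)
    (n - r) s
  rw [← nb_TT_swap p (n - r) (n - s), ← nb_TT_swap p (n - r) (n - s + s)] at h2
  have hr' : n - r + r = n := by omega
  have hs' : n - s + s = n := by omega
  rw [hr', hV] at h1
  rw [hs', hU] at h2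
  have h3 : TT p (n - r) (n - s) * ((B * a ^ (n - r)) ^ s * (A * a ^ n) ^ r) ≤
      TT p n n := by
    rw [← mul_assoc]
    exact (mul_le_mul_of_nonneg_right h2 (by positivity)).trans h1
  have h4 := nb_SS_le hp (n - r) (n - s)
  have h5 : ((n - r).factorial : ℝ) * n.descFactorial r = n.factorial := by
    exact_mod_cast Nat.factorial_mul_descFactorial hr
  have h6 : ((n - s).factorial : ℝ) * n.descFactorial s = n.factorial := by
    exact_mod_cast Nat.factorial_mul_descFactorial hs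
  have h7 : (a ^ n)⁻¹ / A * (A * a ^ n) = 1 := by
    have : a ^ n ≠ 0 := (pow_pos ha n).ne'
    field_simp
  have h8 : (a ^ (n - r))⁻¹ / B * (B * a ^ (n - r)) = 1 := by
    have : a ^ (n - r) ≠ 0 := (pow_pos ha _).ne'
    field_simp
  set X : ℝ := ((a ^ n)⁻¹ / A) ^ r * ((a ^ (n - r))⁻¹ / B) ^ s with hX
  have hX1 : X * ((B * a ^ (n - r)) ^ s * (A * a ^ n) ^ r) = 1 := by
    calc X * ((B * a ^ (n - r)) ^ s * (A * a ^ n) ^ r)
        = ((a ^ n)⁻¹ / A * (A * a ^ n)) ^ r *
          ((a ^ (n - r))⁻¹ / B * (B * a ^ (n - r))) ^ s := by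
          rw [hX, mul_pow _ (A * a ^ n), mul_pow _ (B * a ^ (n - r))]
          ring
      _ = 1 := by rw [h7, h8, one_pow, one_pow, one_mul]
  have hX0 : 0 ≤ X := by positivity
  have h9 : TT p (n - r) (n - s) ≤ X * TT p n n := by
    calc TT p (n - r) (n - s)
        = TT p (n - r) (n - s) * (X * ((B * a ^ (n - r)) ^ s * (A * a ^ n) ^ r)) := by
          rw [hX1, mul_one]
      _ = X * (TT p (n - r) (n - s) * ((B * a ^ (n - r)) ^ s * (A * a ^ n) ^ r)) := by ring
      _ ≤ _ := mul_le_mul_of_nonneg_left h3 hX0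
  have hf1 : (0 : ℝ) < (n - r).factorial := by positivity
  have hf2 : (0 : ℝ) < (n - s).factorial := by positivity
  have h10 : ((n - r).factorial : ℝ) * ((n - s).factorial * SS p (n - r) (n - s)) ≤
      ((n - r).factorial : ℝ) * ((n - s).factorial * (2 * ((n.descFactorial r : ℝ) *
        n.descFactorial s * X) * SS p n n)) := by
    calc ((n - r).factorial : ℝ) * ((n - s).factorial * SS p (n - r) (n - s))
        ≤ X * TT p n n := h4.trans h9
      _ ≤ X * (2 * ((n.factorial : ℝ) * (n.factorial * SS p n n))) :=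
          mul_le_mul_of_nonneg_left (by linarith) hX0
      _ = X * (2 * ((((n - r).factorial : ℝ) * n.descFactorial r) *
          ((((n - s).factorial : ℝ) * n.descFactorial s) * SS p n n))) := by rw [h5, h6]
      _ = _ := by ring
  have h11 := le_of_mul_le_mul_left (le_of_mul_le_mul_left h10 hf1) hf2
  refine h11.trans (le_of_eq ?_)
  rw [hX]
  ring

end Pool.Agent.LCB
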