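import Mathlib
import Pool.Agent.Helper37.NoisyB.Rect
import Pool.Agent.LCB.Moment

/-!
# Second moment for rectangles with truncated weights
-/

namespace Pool.Agent.LCB

open Finset MeasureTheory ProbabilityTheory Pool.Agent.Helper37.NoisyR Pool.Agent.Helper37.NoisyB

variable {V U : Type*} [Fintype V] [Fintype U] [DecidableEq V] [DecidableEq U]

/-- The bound for one pair of intersection sizes. -/
noncomputable def GG2 (c a A B : ℝ) (n r s : ℕ) : ℝ :=
  2 * ((n.descFactorial r : ℝ) * n.descFactorial s * ((a ^ n)⁻¹ / A) ^ r *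
    ((a ^ (n - r))⁻¹ / B) ^ s) * c ^ (r * (n - s) + (n - r) * s)

/-- The total error. -/
noncomputable def EN2 (c a A B : ℝ) (n : ℕ) : ℝ := ∑ r ∈ range (n + 1), ∑ s ∈ range (n + 1),
  if 1 ≤ r ∧ 1 ≤ s then (n.choose r : ℝ) * (n.choose s) * GG2 c a A B n r s else 0

/-- Weighted second moment inequality, weights may vanish. -/
theorem lc_wsm {Ω ι I : Type*} [MeasurableSpace Ω] [Fintype I] [DecidableEq ι]
    {μ : Measure Ω} [IsProbabilityMeasure μ] {E : ι → Set Ω}
    (hE : ∀ e, MeasurableSet (E e)) (hI : iIndepSet E μ)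
    (D : I → Finset ι) (b : Bool) (w : I → ℝ) (hw : ∀ i, 0 ≤ w i) (hw1 : ∑ i, w i = 1)
    (hpos : ∀ i, w i ≠ 0 → ∀ e ∈ D i, 0 < pr μ E b e) (Z : Set Ω)
    (hZ : ∀ ω ∈ Z, ∀ i, w i ≠ 0 → ∃ e ∈ D i, ω ∉ ev E b e) :
    μ.real Z ≤ ∑ i, w i * ∑ j, w j * bd μ E D (fun _ => b) i j := by
  classical
  set D' : I → Finset ι := fun i => if w i = 0 then ∅ else D i with hD'
  have h1 := nr_wsm hE hI D' (fun _ => b) w hw hw1 (by
    intro i e he
    simp only [hD'] at he
    split_ifs at he with h
    · simp at he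
    · exact hpos i h e he) Z (by
    intro ω hω i hi
    obtain ⟨e, he, h⟩ := hZ ω hω i hi
    exact ⟨e, by simp only [hD', if_neg hi]; exact he, h⟩)
  refine h1.trans (le_of_eq ?_)
  refine sum_congr rfl fun i _ => ?_
  by_cases hi : w i = 0
  · rw [hi, zero_mul, zero_mul]
  congr 1
  refine sum_congr rfl fun j _ => ?_
  by_cases hj : w j = 0
  · rw [hj, zero_mul, zero_mul]
  unfold bd
  simp only [hD', if_neg hi, if_neg hj]

open Classical in
/-- **Second moment bound for rectangles.** -/
theorem lc_rect {n : ℕ} {Ω : Type*} [MeasurableSpace Ω] {μ : Measure Ω}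
    [IsProbabilityMeasure μ] [Nonempty V] [Nonempty U] {E : V × U → Set Ω}
    (hE : ∀ e, MeasurableSet (E e)) (hI : iIndepSet E μ) (b : Bool) {c a A B : ℝ}
    {p : V → U → ℝ} (hp : ∀ i j, 0 ≤ p i j) (hppr : ∀ i j, p i j ≤ pr μ E b (i, j))
    (hpc : ∀ i j, p i j ≤ c) (ha : 0 < a)
    (havg : (Fintype.card V : ℝ) * Fintype.card U * a ≤ ∑ i, ∑ j, p i j)
    (hV : (Fintype.card V : ℝ) = A) (hU : (Fintype.card U : ℝ) = B) (hn : 1 ≤ n)
    (hsA : 2 * ((n : ℝ) ^ 2 * (c / a) ^ n) ≤ A) (hsB : 2 * ((n : ℝ) ^ 2 * (c / a) ^ n) ≤ B)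
    (Z : Set Ω) (hZ : ∀ ω ∈ Z, ∀ (A : Finset V) (B : Finset U), A.card = n → B.card = n →
      ∃ e ∈ A ×ˢ B, ω ∉ ev E b e) :
    μ.real Z ≤ EN2 c a A B n := by
  have hc : 0 ≤ c := by
    obtain ⟨v⟩ := (inferInstance : Nonempty V)
    obtain ⟨u⟩ := (inferInstance : Nonempty U)
    exact (hp v u).trans (hpc v u)
  have hA : 0 < A := by
    rw [← hV]
    exact_mod_cast Fintype.card_pos
  have hB : 0 < B := by
    rw [← hU]
    exact_mod_cast Fintype.card_pos
  have hSpos : 0 < SS p n n := (lc_ratio hp ha hpc havg hV hU hn hsA hsB le_rfl le_rfl).2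
  set S : ℝ := SS p n n with hS
  set Fm : Finset (Finset V × Finset U) :=
    ((univ : Finset V).powersetCard n) ×ˢ ((univ : Finset U).powersetCard n) with hFm
  set w : Finset V × Finset U → ℝ := fun T => if T ∈ Fm then PP p T.1 T.2 / S else 0 with hw
  have hw0 : ∀ T, 0 ≤ w T := by
    intro T
    simp only [hw]
    split_ifs
    · exact div_nonneg (nb_PP_nonneg hp _ _) hSpos.le
    · exact le_rfl
  have hw1 : ∑ T, w T = 1 := by
    simp only [hw]
    rw [← sum_filter, filter_univ_mem, hFm, sum_product_right]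
    simp only
    simp_rw [← sum_div]
    exact div_self hSpos.ne'
  -- positivity on the support
  have hsupp : ∀ T : Finset V × Finset U, w T ≠ 0 → ∀ i ∈ T.1, ∀ j ∈ T.2, 0 < p i j := by
    intro T hT i hi j hj
    refine lt_of_le_of_ne (hp i j) fun h0 => hT ?_
    simp only [hw]
    split_ifs
    · have : PP p T.1 T.2 = 0 := by
        unfold PP
        exact prod_eq_zero hi (prod_eq_zero hj h0.symm)
      rw [this, zero_div]
    · rfl
  refine (lc_wsm hE hI (fun T : Finset V × Finset U => T.1 ×ˢ T.2) b w hw0 hw1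
    (fun T hT e he => ?_) Z (fun ω hω T hT => ?_)).trans ?_
  · rw [mem_product] at he
    exact (hsupp T hT e.1 he.1 e.2 he.2).trans_le (hppr e.1 e.2)
  · have hTF : T ∈ Fm := by
      by_contra h
      exact hT (by simp only [hw, if_neg h])
    rw [hFm, mem_product, mem_powersetCard, mem_powersetCard] at hTF
    exact hZ ω hω T.1 T.2 hTF.1.2 hTF.2.2
  -- correlations
  have key : ∀ T ∈ Fm, w T ≠ 0 → ∑ T', w T' * bd μ E (fun T : Finset V × Finset U => T.1 ×ˢ T.2)
      (fun _ => b) T T' ≤ ∑ r ∈ range (n + 1), ∑ s ∈ range (n + 1),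
      if 1 ≤ r ∧ 1 ≤ s then (n.choose r : ℝ) * (n.choose s) * GG2 c a A B n r s else 0 := by
    intro T hT hwT
    have hTpos := hsupp T hwT
    rw [hFm, mem_product, mem_powersetCard, mem_powersetCard] at hT
    have h1 : ∀ T', w T' * bd μ E (fun T : Finset V × Finset U => T.1 ×ˢ T.2)
        (fun _ => b) T T' ≤ ∑ R ∈ T.1.powerset, ∑ C ∈ T.2.powerset,
          if 1 ≤ R.card ∧ 1 ≤ C.card then
            (if R ⊆ T'.1 ∧ C ⊆ T'.2 then w T' * (PP p R C)⁻¹ else 0) else 0 := by
      intro T'
      have hnn : ∀ (R : Finset V) (C : Finset U), (0 : ℝ) ≤ if 1 ≤ R.card ∧ 1 ≤ C.card then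
            (if R ⊆ T'.1 ∧ C ⊆ T'.2 then w T' * (PP p R C)⁻¹ else 0) else 0 := by
        intro R C
        split_ifs
        · exact mul_nonneg (hw0 T') (inv_nonneg.2 (nb_PP_nonneg hp R C))
        · exact le_rfl
        · exact le_rfl
      unfold bd
      split_ifs with h
      · have h2 := h.2
        rw [product_inter_product] at h2 ⊢
        rw [nonempty_product] at h2
        refine le_trans ?_ (single_le_sum (fun R _ => sum_nonneg fun C _ => hnn R C)
          (mem_powerset.2 inter_subset_left : T.1 ∩ T'.1 ∈ _))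
        refine le_trans ?_ (single_le_sum (fun C _ => hnn _ C)
          (mem_powerset.2 inter_subset_left : T.2 ∩ T'.2 ∈ _))
        rw [if_pos ⟨card_pos.2 h2.1, card_pos.2 h2.2⟩,
          if_pos ⟨inter_subset_right, inter_subset_right⟩]
        refine mul_le_mul_of_nonneg_left ?_ (hw0 T')
        rw [prod_inv_distrib, prod_product]
        unfold PP
        refine inv_anti₀ ?_ ?_
        · exact prod_pos fun i hi => prod_pos fun j hj =>
            hTpos i (mem_inter.1 hi).1 j (mem_inter.1 hj).1
        · exact prod_le_prod (fun i _ => prod_nonneg fun j _ => hp i j) fun i _ =>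
            prod_le_prod (fun j _ => hp i j) fun j _ => hppr i j
      · rw [mul_zero]
        exact sum_nonneg fun R _ => sum_nonneg fun C _ => hnn R C
    refine (sum_le_sum fun T' _ => h1 T').trans ?_
    rw [sum_comm]
    have h2 : ∀ R ∈ T.1.powerset, ∑ T', ∑ C ∈ T.2.powerset,
        (if 1 ≤ R.card ∧ 1 ≤ C.card then
            (if R ⊆ T'.1 ∧ C ⊆ T'.2 then w T' * (PP p R C)⁻¹ else 0) else 0) ≤
        ∑ C ∈ T.2.powerset, if 1 ≤ R.card ∧ 1 ≤ C.card then
          GG2 c a A B n R.card C.card else 0 := by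
      intro R hR
      rw [sum_comm]
      refine sum_le_sum fun C hC => ?_
      rw [mem_powerset] at hR hC
      have hRn : R.card ≤ n := by
        rw [← hT.1.2]
        exact card_le_card hR
      have hCn : C.card ≤ n := by
        rw [← hT.2.2]
        exact card_le_card hC
      split_ifs with h
      · have h3 : ∑ T' : Finset V × Finset U,
            (if R ⊆ T'.1 ∧ C ⊆ T'.2 then w T' * (PP p R C)⁻¹ else 0) =
            (∑ B ∈ ((univ : Finset U).powersetCard n).filter (fun B => C ⊆ B),
              ∑ A ∈ ((univ : Finset V).powersetCard n).filter (fun A => R ⊆ A),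
                PP p A B) * (S⁻¹ * (PP p R C)⁻¹) := by
          have h4 : ∀ T' : Finset V × Finset U,
              (if R ⊆ T'.1 ∧ C ⊆ T'.2 then w T' * (PP p R C)⁻¹ else 0) =
              if T' ∈ (((univ : Finset V).powersetCard n).filter (fun A => R ⊆ A)) ×ˢ
                (((univ : Finset U).powersetCard n).filter (fun B => C ⊆ B)) then
                PP p T'.1 T'.2 * (S⁻¹ * (PP p R C)⁻¹) else 0 := by
            intro T'
            simp only [hw, hFm, mem_product, mem_filter]
            by_cases hA : T'.1 ∈ (univ : Finset V).powersetCard n <;>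
            by_cases hB : T'.2 ∈ (univ : Finset U).powersetCard n <;>
            by_cases hA' : R ⊆ T'.1 <;> by_cases hB' : C ⊆ T'.2 <;>
            simp [hA, hB, hA', hB', div_eq_mul_inv, mul_assoc]
          simp_rw [h4]
          rw [← sum_filter, filter_univ_mem, sum_product_right, sum_mul]
          refine sum_congr rfl fun B _ => ?_
          rw [sum_mul]
        rw [h3]
        have h5 := nb_sup hp hpc hc (n := n) R C
        have h6 := (lc_ratio hp ha hpc havg hV hU hn hsA hsB hRn hCn).1
        have hPP : 0 < PP p R C := prod_pos fun i hi => prod_pos fun j hj =>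
          hTpos i (hR hi) j (hC hj)
        have h7 : 0 ≤ S⁻¹ * (PP p R C)⁻¹ := by positivity
        refine (mul_le_mul_of_nonneg_right h5 h7).trans ?_
        calc PP p R C * (c ^ (R.card * (n - C.card) + (n - R.card) * C.card) *
              SS p (n - R.card) (n - C.card)) * (S⁻¹ * (PP p R C)⁻¹)
            = c ^ (R.card * (n - C.card) + (n - R.card) * C.card) *
              (SS p (n - R.card) (n - C.card) * S⁻¹) := by
              field_simp
          _ ≤ c ^ (R.card * (n - C.card) + (n - R.card) * C.card) *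
              (2 * ((n.descFactorial R.card : ℝ) * n.descFactorial C.card *
                ((a ^ n)⁻¹ / A) ^ R.card * ((a ^ (n - R.card))⁻¹ / B) ^ C.card)) := by
              refine mul_le_mul_of_nonneg_left ?_ (by positivity)
              rw [← div_eq_mul_inv, div_le_iff₀ hSpos]
              exact h6
          _ = _ := by
              unfold GG2
              ring
      · simp
    refine (sum_le_sum h2).trans ?_
    have h3 : ∀ R ∈ T.1.powerset, ∑ C ∈ T.2.powerset,
        (if 1 ≤ R.card ∧ 1 ≤ C.card then GG2 c a A B n R.card C.card else 0) =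
        (fun r : ℕ => ∑ s ∈ range (n + 1), (n.choose s : ℝ) *
          (if 1 ≤ r ∧ 1 ≤ s then GG2 c a A B n r s else 0)) R.card := by
      intro R _
      rw [sum_powerset_apply_card
        (fun s : ℕ => if 1 ≤ R.card ∧ 1 ≤ s then GG2 c a A B n R.card s else 0), hT.2.2]
      simp only [nsmul_eq_mul]
    rw [sum_congr rfl h3, sum_powerset_apply_card
      (fun r : ℕ => ∑ s ∈ range (n + 1), (n.choose s : ℝ) *
          (if 1 ≤ r ∧ 1 ≤ s then GG2 c a A B n r s else 0)), hT.1.2]
    refine sum_le_sum fun r _ => ?_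
    rw [nsmul_eq_mul, mul_sum]
    refine sum_le_sum fun s _ => ?_
    split_ifs
    · exact le_of_eq (by ring)
    · simp
  unfold EN2
  calc ∑ T, w T * ∑ T', w T' *
          bd μ E (fun T : Finset V × Finset U => T.1 ×ˢ T.2) (fun _ => b) T T'
      ≤ ∑ T, w T * ∑ r ∈ range (n + 1), ∑ s ∈ range (n + 1),
        (if 1 ≤ r ∧ 1 ≤ s then (n.choose r : ℝ) * (n.choose s) * GG2 c a A B n r s else 0) := by
        refine sum_le_sum fun T _ => ?_
        by_cases hT0 : w T = 0
        · rw [hT0]
          simp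
        by_cases hT : T ∈ Fm
        · exact mul_le_mul_of_nonneg_left (key T hT hT0) (hw0 T)
        · have : w T = 0 := by simp only [hw, if_neg hT]
          rw [this]
          simp
    _ = _ := by rw [← sum_mul, hw1, one_mul]

end Pool.Agent.LCB
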