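import Mathlib
import Pool.Agent.Helper37.NoisyB.Num
import Pool.Agent.LCB.Rect

/-!
# Error terms for truncated weights
-/

namespace Pool.Agent.LCB

open Finset Pool.Agent.Helper37.NoisyR Pool.Agent.Helper37.NoisyB

/-- Comparison with the error term of the square case. -/
theorem lc_EN2_le {c A B N' σ : ℝ} (hc : 0 ≤ c) (hA : 0 < A) (hB : 0 < B) (hN' : 0 < N')
    (hσ : 0 < σ) (hσ1 : σ ≤ 1) {n : ℕ} (hNA : N' ≤ σ ^ n * A) (hNB : N' ≤ σ ^ n * B) :
    EN2 c (σ / 2) A B n ≤ EN c N' n := by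
  unfold EN2 EN
  refine sum_le_sum fun r hr => sum_le_sum fun s _ => ?_
  split_ifs with h
  swap
  · exact le_rfl
  have hrn : r ≤ n := by
    rw [mem_range] at hr
    omega
  refine mul_le_mul_of_nonneg_left ?_ (by positivity)
  unfold GG2 GG
  have e1 : ((σ / 2) ^ n)⁻¹ / A ≤ 2 ^ n / N' := by
    rw [div_pow, inv_div, div_div]
    exact div_le_div_of_nonneg_left (by positivity) hN' hNA
  have e2 : ((σ / 2) ^ (n - r))⁻¹ / B ≤ 2 ^ (n - r) / N' := by
    rw [div_pow, inv_div, div_div]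
    refine div_le_div_of_nonneg_left (by positivity) hN' (hNB.trans ?_)
    refine mul_le_mul_of_nonneg_right ?_ hB.le
    exact pow_le_pow_of_le_one hσ.le hσ1 (Nat.sub_le _ _)
  refine mul_le_mul_of_nonneg_right ?_ (by positivity)
  refine mul_le_mul_of_nonneg_left ?_ (by norm_num)
  refine mul_le_mul (mul_le_mul_of_nonneg_left ?_ (by positivity)) ?_ (by positivity)
    (by positivity)
  · exact pow_le_pow_left₀ (by positivity) e1 r
  · exact pow_le_pow_left₀ (by positivity) e2 s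

/-- The bilinear estimate. -/
theorem lc_bilin {X Y z : ℝ} (hX : 0 ≤ X) (hX1 : X ≤ 1) (hY : 0 ≤ Y) (hY1 : Y ≤ 1)
    (hz : 0 < z) {n r s : ℕ} (hn : 1 ≤ n) (hr : r ≤ n) (hs : s ≤ n) (h : X * Y ≤ z ^ n) :
    X ^ r * Y ^ s * (z⁻¹) ^ (r * s) ≤ 1 := by
  have h1 : X ^ r * Y ^ s ≤ z ^ (r * s) := by
    refine le_of_pow_le_pow_left₀ (n := n) (by omega) (by positivity) ?_
    calc (X ^ r * Y ^ s) ^ n = X ^ (r * n) * Y ^ (s * n) := by
          rw [mul_pow, ← pow_mul, ← pow_mul]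
      _ ≤ X ^ (r * s) * Y ^ (r * s) := by
          refine mul_le_mul ?_ ?_ (by positivity) (by positivity)
          · exact pow_le_pow_of_le_one hX hX1 (Nat.mul_le_mul_left _ hs)
          · refine pow_le_pow_of_le_one hY hY1 ?_
            rw [mul_comm r s]
            exact Nat.mul_le_mul_left _ hr
      _ = (X * Y) ^ (r * s) := by rw [mul_pow]
      _ ≤ (z ^ n) ^ (r * s) := pow_le_pow_left₀ (by positivity) h _
      _ = (z ^ (r * s)) ^ n := by
          rw [← pow_mul, ← pow_mul, mul_comm n]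
  rw [inv_pow]
  have h2 : 0 < z ^ (r * s) := by positivity
  rw [← div_eq_mul_inv, div_le_one h2]
  exact h1

theorem lc_theta {n : ℕ} (hn : 2 ≤ n) : ((1 - 1 / (n : ℝ)) ^ n)⁻¹ ≤ 4 := by
  have hn' : (2 : ℝ) ≤ n := by exact_mod_cast hn
  -- (1-1/n)^n is at least 1/4
  have key : ∀ m : ℕ, 1 ≤ m → (1 / 4 : ℝ) ≤ (1 - 1 / ((m : ℝ) + 1)) ^ (m + 1) := by
    intro m hm
    have hm' : (1 : ℝ) ≤ m := by exact_mod_cast hm
    have h1 : 1 - 1 / ((m : ℝ) + 1) = ((1 + 1 / (m : ℝ)))⁻¹ := by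
      field_simp
      ring
    rw [h1, inv_pow]
    have h2 : (1 + 1 / (m : ℝ)) ^ m ≤ Real.exp 1 := by
      have h3 : 1 + 1 / (m : ℝ) ≤ Real.exp (1 / m) := by
        have := Real.add_one_le_exp (1 / (m : ℝ))
        linarith
      calc (1 + 1 / (m : ℝ)) ^ m ≤ (Real.exp (1 / m)) ^ m :=
            pow_le_pow_left₀ (by positivity) h3 m
        _ = Real.exp 1 := by
            rw [← Real.exp_nat_mul]
            congr 1
            field_simp
    rcases Nat.lt_or_ge m 3 with h | h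
    · interval_cases m
      · norm_num
      · norm_num
    · have h4 : (1 + 1 / (m : ℝ)) ^ (m + 1) ≤ 4 := by
        have h5 : (3 : ℝ) ≤ m := by exact_mod_cast h
        have h6 : 1 + 1 / (m : ℝ) ≤ 4 / 3 := by
          have : 1 / (m : ℝ) ≤ 1 / 3 := one_div_le_one_div_of_le (by norm_num) h5
          linarith
        have h7 := Real.exp_one_lt_d9
        rw [pow_succ]
        have h8 : (0 : ℝ) ≤ (1 + 1 / (m : ℝ)) ^ m := by positivity
        nlinarith
      have h9 : 0 < (1 + 1 / (m : ℝ)) ^ (m + 1) := by positivity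
      rw [one_div]
      exact inv_anti₀ h9 h4
  obtain ⟨m, rfl⟩ : ∃ m, n = m + 1 := ⟨n - 1, by omega⟩
  have h1 := key m (by omega)
  push_cast
  rw [inv_le_comm₀ (by linarith) (by norm_num)]
  linarith

/-- Block regime. -/
theorem lc_EN2_block {c A B : ℝ} (hc : 0 < c) (hA : 0 < A) (hB : 0 < B) {n : ℕ} (hn : 2 ≤ n)
    (hA4 : 4 * (n : ℝ) ^ 4 ≤ A) (hB4 : 4 * (n : ℝ) ^ 4 ≤ B)
    (hAB : 16 * (n : ℝ) ^ 8 ≤ A * B * c ^ n) :
    EN2 c (c * (1 - 1 / n)) A B n ≤ ((n : ℝ) + 1) ^ 2 * (2 / (n : ℝ) ^ 4) := by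
  have hn' : (2 : ℝ) ≤ n := by exact_mod_cast hn
  have hn0 : (0 : ℝ) < n := by linarith
  set θ : ℝ := 1 - 1 / (n : ℝ) with hθ
  have hθ0 : 0 < θ := by
    have : 1 / (n : ℝ) ≤ 1 / 2 := one_div_le_one_div_of_le (by norm_num) hn'
    linarith
  have hθ1 : θ ≤ 1 := by
    have : 0 ≤ 1 / (n : ℝ) := by positivity
    linarith
  have hθn : (θ ^ n)⁻¹ ≤ 4 := lc_theta hn
  set X : ℝ := 4 * (n : ℝ) ^ 4 / A with hX
  set Y : ℝ := 4 * (n : ℝ) ^ 4 / B with hY
  have hX0 : 0 ≤ X := by positivity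
  have hY0 : 0 ≤ Y := by positivity
  have hX1 : X ≤ 1 := (div_le_one hA).2 hA4
  have hY1 : Y ≤ 1 := (div_le_one hB).2 hB4
  have hXY : X * Y ≤ c ^ n := by
    rw [hX, hY, div_mul_div_comm, div_le_iff₀ (by positivity)]
    calc 4 * (n : ℝ) ^ 4 * (4 * (n : ℝ) ^ 4) = 16 * (n : ℝ) ^ 8 := by ring
      _ ≤ _ := hAB
      _ = _ := by ring
  have h1 : ∀ r ∈ range (n + 1), ∀ s ∈ range (n + 1),
      (if 1 ≤ r ∧ 1 ≤ s then (n.choose r : ℝ) * (n.choose s) * GG2 c (c * θ) A B n r s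
        else 0) ≤ 2 / (n : ℝ) ^ 4 := by
    intro r hr s hs
    rw [mem_range] at hr hs
    have hrn : r ≤ n := by omega
    have hsn : s ≤ n := by omega
    split_ifs with h
    swap
    · positivity
    have h4 : (n.choose r : ℝ) ≤ (n : ℝ) ^ r := by exact_mod_cast Nat.choose_le_pow n r
    have h5 : (n.choose s : ℝ) ≤ (n : ℝ) ^ s := by exact_mod_cast Nat.choose_le_pow n s
    have h6 : (n.descFactorial r : ℝ) ≤ (n : ℝ) ^ r := by
      exact_mod_cast Nat.descFactorial_le_pow n r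
    have h7 : (n.descFactorial s : ℝ) ≤ (n : ℝ) ^ s := by
      exact_mod_cast Nat.descFactorial_le_pow n s
    -- the power of c
    have e1 : (((c * θ) ^ n)⁻¹ / A) ^ r * (((c * θ) ^ (n - r))⁻¹ / B) ^ s *
        c ^ (r * (n - s) + (n - r) * s) ≤ (4 / A) ^ r * (4 / B) ^ s * (c⁻¹) ^ (r * s) := by
      have e2 : (((c * θ) ^ n)⁻¹ / A) ^ r = (c⁻¹) ^ (n * r) * ((θ ^ n)⁻¹ / A) ^ r := by
        rw [mul_pow, mul_inv, ← inv_pow c, mul_div_assoc, mul_pow, pow_mul]
      have e3 : (((c * θ) ^ (n - r))⁻¹ / B) ^ s =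
          (c⁻¹) ^ ((n - r) * s) * ((θ ^ (n - r))⁻¹ / B) ^ s := by
        rw [mul_pow, mul_inv, ← inv_pow c, mul_div_assoc, mul_pow, pow_mul]
      have e4 : (c⁻¹) ^ (n * r) * (c⁻¹) ^ ((n - r) * s) * c ^ (r * (n - s) + (n - r) * s) =
          (c⁻¹) ^ (r * s) := by
        have e5 : n * r = r * (n - s) + r * s := by
          rw [← Nat.mul_add, Nat.sub_add_cancel hsn, mul_comm]
        rw [e5, pow_add _ (r * (n - s)), pow_add c]
        have e6 : (c⁻¹) ^ (r * (n - s)) * c ^ (r * (n - s)) = 1 := by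
          rw [← mul_pow, inv_mul_cancel₀ hc.ne', one_pow]
        have e7 : (c⁻¹) ^ ((n - r) * s) * c ^ ((n - r) * s) = 1 := by
          rw [← mul_pow, inv_mul_cancel₀ hc.ne', one_pow]
        calc (c⁻¹) ^ (r * (n - s)) * (c⁻¹) ^ (r * s) * (c⁻¹) ^ ((n - r) * s) *
            (c ^ (r * (n - s)) * c ^ ((n - r) * s))
            = ((c⁻¹) ^ (r * (n - s)) * c ^ (r * (n - s))) *
              ((c⁻¹) ^ ((n - r) * s) * c ^ ((n - r) * s)) * (c⁻¹) ^ (r * s) := by ring
          _ = _ := by rw [e6, e7]; ring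
      have e8 : (θ ^ (n - r))⁻¹ ≤ 4 := by
        refine le_trans ?_ hθn
        refine inv_anti₀ (by positivity) ?_
        exact pow_le_pow_of_le_one hθ0.le hθ1 (Nat.sub_le _ _)
      rw [e2, e3]
      calc (c⁻¹) ^ (n * r) * ((θ ^ n)⁻¹ / A) ^ r *
          ((c⁻¹) ^ ((n - r) * s) * ((θ ^ (n - r))⁻¹ / B) ^ s) *
          c ^ (r * (n - s) + (n - r) * s)
          = ((θ ^ n)⁻¹ / A) ^ r * ((θ ^ (n - r))⁻¹ / B) ^ s *
            ((c⁻¹) ^ (n * r) * (c⁻¹) ^ ((n - r) * s) * c ^ (r * (n - s) + (n - r) * s)) := by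
            ring
        _ = ((θ ^ n)⁻¹ / A) ^ r * ((θ ^ (n - r))⁻¹ / B) ^ s * (c⁻¹) ^ (r * s) := by rw [e4]
        _ ≤ _ := by
            refine mul_le_mul_of_nonneg_right ?_ (by positivity)
            refine mul_le_mul ?_ ?_ (by positivity) (by positivity)
            · exact pow_le_pow_left₀ (by positivity)
                (div_le_div_of_nonneg_right hθn hA.le) r
            · exact pow_le_pow_left₀ (by positivity)
                (div_le_div_of_nonneg_right e8 hB.le) s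
    have hbil := lc_bilin hX0 hX1 hY0 hY1 hc (by omega : 1 ≤ n) hrn hsn hXY
    have e9 : ((n : ℝ) ^ 2 * (4 / A)) ^ r = (1 / (n : ℝ) ^ 2) ^ r * X ^ r := by
      rw [← mul_pow]
      congr 1
      rw [hX]
      field_simp
    have e10 : ((n : ℝ) ^ 2 * (4 / B)) ^ s = (1 / (n : ℝ) ^ 2) ^ s * Y ^ s := by
      rw [← mul_pow]
      congr 1
      rw [hY]
      field_simp
    calc (n.choose r : ℝ) * (n.choose s) * GG2 c (c * θ) A B n r s
        = 2 * (((n.choose r : ℝ) * (n.choose s)) * ((n.descFactorial r : ℝ) *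
          n.descFactorial s) * ((((c * θ) ^ n)⁻¹ / A) ^ r * (((c * θ) ^ (n - r))⁻¹ / B) ^ s *
          c ^ (r * (n - s) + (n - r) * s))) := by
          unfold GG2
          ring
      _ ≤ 2 * (((n : ℝ) ^ r * (n : ℝ) ^ s) * ((n : ℝ) ^ r * (n : ℝ) ^ s) *
          ((4 / A) ^ r * (4 / B) ^ s * (c⁻¹) ^ (r * s))) := by
          refine mul_le_mul_of_nonneg_left ?_ (by norm_num)
          refine mul_le_mul (mul_le_mul (mul_le_mul h4 h5 (by positivity) (by positivity))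
            (mul_le_mul h6 h7 (by positivity) (by positivity)) (by positivity)
            (by positivity)) e1 (by positivity) (by positivity)
      _ = 2 * (((n : ℝ) ^ 2 * (4 / A)) ^ r * ((n : ℝ) ^ 2 * (4 / B)) ^ s *
          (c⁻¹) ^ (r * s)) := by
          rw [mul_pow ((n : ℝ) ^ 2), mul_pow ((n : ℝ) ^ 2), ← pow_mul, ← pow_mul,
            mul_comm 2 r, mul_comm 2 s, pow_mul, pow_mul]
          ring
      _ = 2 * ((1 / (n : ℝ) ^ 2) ^ r * (1 / (n : ℝ) ^ 2) ^ s *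
          (X ^ r * Y ^ s * (c⁻¹) ^ (r * s))) := by
          rw [e9, e10]
          ring
      _ ≤ 2 * ((1 / (n : ℝ) ^ 2) ^ r * (1 / (n : ℝ) ^ 2) ^ s * 1) := by
          refine mul_le_mul_of_nonneg_left ?_ (by norm_num)
          exact mul_le_mul_of_nonneg_left hbil (by positivity)
      _ = 2 * (1 / (n : ℝ) ^ 2) ^ (r + s) := by rw [mul_one, ← pow_add]
      _ ≤ 2 * (1 / (n : ℝ) ^ 2) ^ 2 := by
          refine mul_le_mul_of_nonneg_left ?_ (by norm_num)
          refine pow_le_pow_of_le_one (by positivity) ?_ (by omega)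
          rw [div_le_one (by positivity)]
          nlinarith
      _ = 2 / (n : ℝ) ^ 4 := by
          rw [div_pow, one_pow, ← pow_mul]
          ring
  unfold EN2
  refine (sum_le_sum fun r hr => sum_le_sum fun s hs => h1 r hr s hs).trans (le_of_eq ?_)
  rw [sum_const, sum_const, card_range, smul_smul, nsmul_eq_mul]
  push_cast
  ring

end Pool.Agent.LCB
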