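import Mathlib
import Pool.Agent.Helper37.NoisyB.Num
import Pool.Agent.LCB.Num
import Pool.Agent.LCB.Defs

/-!
# The second moment bound for a submatrix
-/

namespace Pool.Agent.LCB

open Finset MeasureTheory ProbabilityTheory Pool.Agent.Helper37.NoisyR

/-- Entry events. -/
def EX {N : ℕ} {Ω : Type} (X : Ω → Fin N → Fin N → Bool) (e : Fin N × Fin N) : Set Ω :=
  {ω | X ω e.1 e.2 = true}

theorem lc_pr_true {N : ℕ} {Ω : Type} [MeasurableSpace Ω] {μ : Measure Ω}
    {X : Ω → Fin N → Fin N → Bool} (e : Fin N × Fin N) :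
    pr μ (EX X) true e = μ.real {ω | X ω e.1 e.2 = true} := by
  unfold pr ev EX
  simp

theorem lc_pr_false {N : ℕ} {Ω : Type} [MeasurableSpace Ω] {μ : Measure Ω}
    [IsProbabilityMeasure μ] {X : Ω → Fin N → Fin N → Bool}
    (hmeas : ∀ i j, MeasurableSet {ω | X ω i j = true}) (e : Fin N × Fin N) :
    pr μ (EX X) false e = 1 - pr μ (EX X) true e := by
  unfold pr ev
  simp only [Bool.false_eq_true, if_false, if_true]
  exact probReal_compl_eq_one_sub (hmeas e.1 e.2)

/-- The second moment bound for the submatrix with rows `R` and columns `C`. -/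
theorem lc_wrap {N n : ℕ} {Ω : Type} [MeasurableSpace Ω] {μ : Measure Ω}
    [IsProbabilityMeasure μ] {X : Ω → Fin N → Fin N → Bool}
    (hmeas : ∀ i j, MeasurableSet {ω | X ω i j = true}) (hind : iIndepSet (EX X) μ) (b : Bool)
    {R C : Finset (Fin N)} (hR : R.Nonempty) (hC : C.Nonempty) {c a : ℝ} (hc : 0 ≤ c)
    (ha : 0 < a) (havg : (R.card : ℝ) * C.card * a ≤
      ∑ i ∈ R, ∑ j ∈ C, min (pr μ (EX X) b (i, j)) c) (hn : 1 ≤ n)
    (hsA : 2 * ((n : ℝ) ^ 2 * (c / a) ^ n) ≤ R.card)
    (hsB : 2 * ((n : ℝ) ^ 2 * (c / a) ^ n) ≤ C.card) :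
    1 - EN2 c a R.card C.card n ≤ μ.real {ω | HasRect (X ω) n} := by
  classical
  have : Nonempty R := hR.to_subtype
  have : Nonempty C := hC.to_subtype
  set E : R × C → Set Ω := fun e => EX X (e.1.val, e.2.val) with hE
  have hEm : ∀ e, MeasurableSet (E e) := fun e => hmeas e.1.val e.2.val
  have hinj : Function.Injective (fun e : R × C => ((e.1.val, e.2.val) : Fin N × Fin N)) := by
    rintro ⟨x, y⟩ ⟨x', y'⟩ h
    simp only [Prod.mk.injEq] at h
    exact Prod.ext (Subtype.ext h.1) (Subtype.ext h.2)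
  have hEI : iIndepSet E μ :=
    iIndepSet.precomp (s := EX X) (g := fun e : R × C => ((e.1.val, e.2.val) : Fin N × Fin N))
      hinj hind
  have hprE : ∀ i j, pr μ E b (i, j) = pr μ (EX X) b (i.val, j.val) := by
    intro i j
    unfold pr ev
    rfl
  set H : Set Ω := {ω | HasRect (X ω) n} with hH
  have key : μ.real Hᶜ ≤ EN2 c a R.card C.card n := by
    refine lc_rect (V := R) (U := C) (E := E) hEm hEI b
      (p := fun i j => min (pr μ (EX X) b (i.val, j.val)) c)
      (fun i j => le_min measureReal_nonneg hc)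
      (fun i j => by rw [hprE]; exact min_le_left _ _) (fun i j => min_le_right _ _) ha ?_
      (by rw [Fintype.card_coe]) (by rw [Fintype.card_coe]) hn hsA hsB _ ?_
    · rw [Fintype.card_coe, Fintype.card_coe]
      refine havg.trans (le_of_eq ?_)
      rw [← sum_coe_sort R]
      refine sum_congr rfl fun i _ => ?_
      rw [← sum_coe_sort C]
    · intro ω hω A B hA hB
      by_contra hcon
      push Not at hcon
      refine hω ⟨A.map (Function.Embedding.subtype _), B.map (Function.Embedding.subtype _),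
        by rw [card_map, hA], by rw [card_map, hB], b, fun i hi j hj => ?_⟩
      rw [mem_map] at hi hj
      obtain ⟨i', hi', rfl⟩ := hi
      obtain ⟨j', hj', rfl⟩ := hj
      have h1 := hcon (i', j') (mem_product.2 ⟨hi', hj'⟩)
      simp only [hE] at h1
      unfold ev EX at h1
      cases b
      · simpa using h1
      · simpa using h1
  have h1 : (1 : ℝ) ≤ μ.real H + μ.real Hᶜ := by
    have h2 := measureReal_union_le (μ := μ) H Hᶜ
    rw [Set.union_compl_self, probReal_univ] at h2
    exact h2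
  linarith

end Pool.Agent.LCB
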