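import Mathlib
import Pool.Agent.LCB.Wrap

/-!
# A block of extreme entries
-/

namespace Pool.Agent.LCB

open Finset MeasureTheory ProbabilityTheory Pool.Agent.Helper37.NoisyR

/-- The auxiliary number with `tt n ^ n = n ^ (-4)`. -/
noncomputable def tt (n : ℕ) : ℝ := (n : ℝ) ^ (-(4 : ℝ) / n)

/-- The truncation level. -/
noncomputable def cc (n : ℕ) : ℝ := tt n ^ 2 / Real.sqrt 2

theorem lc_tt_pos {n : ℕ} (hn : 1 ≤ n) : 0 < tt n :=
  Real.rpow_pos_of_pos (by exact_mod_cast hn) _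

theorem lc_tt_pow {n : ℕ} (hn : 1 ≤ n) : tt n ^ n = 1 / (n : ℝ) ^ 4 := by
  have hn' : (0 : ℝ) < n := by exact_mod_cast hn
  unfold tt
  rw [← Real.rpow_natCast, ← Real.rpow_mul hn'.le, div_mul_cancel₀ _ hn'.ne',
    Real.rpow_neg hn'.le]
  rw [one_div]
  congr 1
  exact_mod_cast Real.rpow_natCast (n : ℝ) 4

theorem lc_cc_pos {n : ℕ} (hn : 1 ≤ n) : 0 < cc n :=
  div_pos (pow_pos (lc_tt_pos hn) 2) (Real.sqrt_pos.2 (by norm_num))

theorem lc_two_cc (n : ℕ) : 2 * cc n = Real.sqrt 2 * tt n ^ 2 := by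
  have hs2 : 0 < Real.sqrt 2 := Real.sqrt_pos.2 (by norm_num)
  have hs2' : Real.sqrt 2 * Real.sqrt 2 = 2 := Real.mul_self_sqrt (by norm_num)
  unfold cc
  rw [mul_div_assoc', div_eq_iff hs2.ne']
  calc 2 * tt n ^ 2 = (Real.sqrt 2 * Real.sqrt 2) * tt n ^ 2 := by rw [hs2']
    _ = _ := by ring

theorem lc_cc_pow {n : ℕ} (hn : 1 ≤ n) : cc n ^ n = 1 / ((n : ℝ) ^ 8 * Real.sqrt 2 ^ n) := by
  unfold cc
  rw [div_pow, ← pow_mul, mul_comm 2 n, pow_mul, lc_tt_pow hn]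
  rw [div_pow, one_pow, ← pow_mul, div_div]

/-- Shifting the truncation level by `2 / n`. -/
theorem lc_shift {n : ℕ} {c : ℝ} (hn : 8 ≤ n) (hc : 1 / 2 ≤ c) :
    0 < c - 2 / n ∧ c ^ n ≤ 3000 * (c - 2 / n) ^ n := by
  have hn' : (8 : ℝ) ≤ n := by exact_mod_cast hn
  have hn0 : (0 : ℝ) < n := by linarith
  have h2 : 2 / (n : ℝ) ≤ 2 / 8 := div_le_div_of_nonneg_left (by norm_num) (by norm_num) hn'
  have h4 : 4 / (n : ℝ) ≤ 4 / 8 := div_le_div_of_nonneg_left (by norm_num) (by norm_num) hn'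
  have h4' : 4 / (n : ℝ) = 2 * (2 / n) := by ring
  have h20 : 0 < 2 / (n : ℝ) := by positivity
  have h1 : c * (1 - 4 / n) ≤ c - 2 / n := by
    rw [h4']
    nlinarith
  have h5 : 0 < 1 - 4 / (n : ℝ) := by linarith
  have h6 : (1 - 4 / (n : ℝ))⁻¹ ≤ Real.exp (8 / n) := by
    have h7 : (1 - 4 / (n : ℝ))⁻¹ ≤ 1 + 8 / n := by
      rw [inv_le_comm₀ h5 (by positivity), inv_le_iff_one_le_mul₀ (by positivity)]
      have h8 : 8 / (n : ℝ) = 4 * (2 / n) := by ring
      rw [h8, h4']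
      nlinarith
    have h9 := Real.add_one_le_exp (8 / (n : ℝ))
    linarith
  have h7 : ((1 - 4 / (n : ℝ)) ^ n)⁻¹ ≤ 3000 := by
    rw [← inv_pow]
    calc ((1 - 4 / (n : ℝ))⁻¹) ^ n ≤ Real.exp (8 / n) ^ n :=
          pow_le_pow_left₀ (by positivity) h6 n
      _ = Real.exp 1 ^ 8 := by
          rw [← Real.exp_nat_mul, ← Real.exp_nat_mul]
          congr 1
          field_simp
          try norm_num
      _ ≤ 2.7183 ^ 8 := by
          refine pow_le_pow_left₀ (Real.exp_pos 1).le ?_ 8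
          have := Real.exp_one_lt_d9
          linarith
      _ ≤ 3000 := by norm_num
  refine ⟨by nlinarith, ?_⟩
  have h8 : 0 < (1 - 4 / (n : ℝ)) ^ n := by positivity
  calc c ^ n = ((1 - 4 / (n : ℝ)) ^ n)⁻¹ * (c * (1 - 4 / n)) ^ n := by
        rw [mul_pow, mul_left_comm, inv_mul_cancel₀ h8.ne', mul_one]
    _ ≤ 3000 * (c * (1 - 4 / n)) ^ n := mul_le_mul_of_nonneg_right h7 (by positivity)
    _ ≤ _ := by
        refine mul_le_mul_of_nonneg_left ?_ (by norm_num)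
        exact pow_le_pow_left₀ (by positivity) h1 n

theorem lc_block {N n : ℕ} {Ω : Type} [MeasurableSpace Ω] {μ : Measure Ω}
    [IsProbabilityMeasure μ] {X : Ω → Fin N → Fin N → Bool}
    (hmeas : ∀ i j, MeasurableSet {ω | X ω i j = true}) (hind : iIndepSet (EX X) μ) (b : Bool)
    {R : Finset (Fin N)} (bs : Fin N → ℝ)
    (hbad : ∀ i ∈ R, n ^ 3 * (univ.filter fun j =>
      1 / (n : ℝ) < |pr μ (EX X) b (i, j) - bs j|).card ≤ N)
    (hn8 : 8 ≤ n) (hcc : 1 / 2 ≤ cc n) (hR : 132000 * n ^ 17 ≤ R.card)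
    (hC : N ≤ n ^ 2 * (univ.filter fun j => cc n - 1 / n < bs j).card)
    (hN : ((n : ℝ) / Real.exp 1) * Real.sqrt 2 ^ n ≤ N) (hN4 : 4 * (n : ℝ) ^ 6 ≤ N) :
    1 - ((n : ℝ) + 1) ^ 2 * (2 / (n : ℝ) ^ 4) ≤ μ.real {ω | HasRect (X ω) n} := by
  classical
  have hn : 2 ≤ n := by omega
  have hn' : (2 : ℝ) ≤ n := by exact_mod_cast hn
  have hn0 : (0 : ℝ) < n := by linarith
  have he := Real.exp_pos 1
  have hs2 : 0 < Real.sqrt 2 := Real.sqrt_pos.2 (by norm_num)
  set C : Finset (Fin N) := univ.filter fun j => cc n - 1 / n < bs j with hCdef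
  obtain ⟨hsh0, hsh⟩ := lc_shift hn8 hcc
  set c : ℝ := cc n - 2 / n with hc
  have hc0 : 0 < c := hsh0
  have hNpos : (0 : ℝ) < N := lt_of_lt_of_le (by positivity) hN
  have hC' : (N : ℝ) ≤ (n : ℝ) ^ 2 * C.card := by exact_mod_cast hC
  have hR' : 132000 * (n : ℝ) ^ 17 ≤ R.card := by exact_mod_cast hR
  have hCpos : (0 : ℝ) < C.card := by
    by_contra hcon
    push Not at hcon
    have : (n : ℝ) ^ 2 * C.card ≤ 0 := mul_nonpos_of_nonneg_of_nonpos (by positivity) hcon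
    linarith
  have hRpos : (0 : ℝ) < R.card := lt_of_lt_of_le (by positivity) hR'
  have hCne : C.Nonempty := by
    rw [← card_pos]
    exact_mod_cast hCpos
  have hRne : R.Nonempty := by
    rw [← card_pos]
    exact_mod_cast hRpos
  have hθ0 : 0 < 1 - 1 / (n : ℝ) := by
    have : 1 / (n : ℝ) ≤ 1 / 2 := one_div_le_one_div_of_le (by norm_num) hn'
    linarith
  -- average
  have havg : (R.card : ℝ) * C.card * (c * (1 - 1 / n)) ≤
      ∑ i ∈ R, ∑ j ∈ C, min (pr μ (EX X) b (i, j)) c := by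
    have h1 : ∀ i ∈ R, (C.card : ℝ) * (c * (1 - 1 / n)) ≤
        ∑ j ∈ C, min (pr μ (EX X) b (i, j)) c := by
      intro i hi
      set W : Finset (Fin N) := univ.filter fun j =>
        1 / (n : ℝ) < |pr μ (EX X) b (i, j) - bs j| with hW
      have hWc : (n : ℝ) ^ 3 * W.card ≤ N := by exact_mod_cast hbad i hi
      have h2 : (C.card : ℝ) - W.card ≤ (C \ W).card := by
        have := le_card_sdiff W C
        have h3 : (C.card : ℝ) ≤ (C \ W).card + W.card := by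
          have h4 : C.card ≤ (C \ W).card + W.card := by omega
          exact_mod_cast h4
        linarith
      have h3 : ((C \ W).card : ℝ) * c ≤ ∑ j ∈ C, min (pr μ (EX X) b (i, j)) c := by
        calc ((C \ W).card : ℝ) * c = ∑ j ∈ C \ W, c := by rw [sum_const, nsmul_eq_mul]
          _ ≤ ∑ j ∈ C \ W, min (pr μ (EX X) b (i, j)) c := by
              refine sum_le_sum fun j hj => ?_
              rw [mem_sdiff] at hj
              refine le_min ?_ le_rfl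
              have h5 : |pr μ (EX X) b (i, j) - bs j| ≤ 1 / n := by
                by_contra hne
                exact hj.2 (mem_filter.2 ⟨mem_univ _, not_le.1 hne⟩)
              have h6 := (mem_filter.1 hj.1).2
              have h7 := (abs_le.1 h5).1
              have h8 : 2 / (n : ℝ) = 1 / n + 1 / n := by ring
              rw [hc, h8]
              linarith
          _ ≤ _ := sum_le_sum_of_subset_of_nonneg sdiff_subset fun j _ _ =>
              le_min measureReal_nonneg hc0.le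
      refine le_trans ?_ h3
      have h4 : (W.card : ℝ) ≤ C.card / n := by
        rw [le_div_iff₀ hn0]
        have h5 : (n : ℝ) ^ 2 * (W.card * n) ≤ (n : ℝ) ^ 2 * C.card := by
          calc (n : ℝ) ^ 2 * (W.card * n) = (n : ℝ) ^ 3 * W.card := by ring
            _ ≤ (N : ℝ) := hWc
            _ ≤ _ := hC'
        exact le_of_mul_le_mul_left h5 (by positivity)
      calc (C.card : ℝ) * (c * (1 - 1 / n)) = (C.card - C.card / n) * c := by
            field_simp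
        _ ≤ _ := mul_le_mul_of_nonneg_right (by linarith) hc0.le
    calc (R.card : ℝ) * C.card * (c * (1 - 1 / n))
        = ∑ i ∈ R, (C.card : ℝ) * (c * (1 - 1 / n)) := by
          rw [sum_const, nsmul_eq_mul, mul_assoc]
      _ ≤ _ := sum_le_sum h1
  -- small conditions
  have hθn : ((1 - 1 / (n : ℝ)) ^ n)⁻¹ ≤ 4 := lc_theta hn
  have hca : (c / (c * (1 - 1 / n))) ^ n ≤ 4 := by
    have h1 : c / (c * (1 - 1 / n)) = (1 - 1 / (n : ℝ))⁻¹ := by
      rw [← div_div, div_self hc0.ne', one_div]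
    rw [h1, inv_pow]
    exact hθn
  have hC4 : 4 * (n : ℝ) ^ 4 ≤ C.card := by
    have h1 : (n : ℝ) ^ 2 * (4 * (n : ℝ) ^ 4) ≤ (n : ℝ) ^ 2 * C.card := by
      calc (n : ℝ) ^ 2 * (4 * (n : ℝ) ^ 4) = 4 * (n : ℝ) ^ 6 := by ring
        _ ≤ (N : ℝ) := hN4
        _ ≤ _ := hC'
    exact le_of_mul_le_mul_left h1 (by positivity)
  have hn1 : (1 : ℝ) ≤ n := by linarith
  have hR4 : 4 * (n : ℝ) ^ 4 ≤ R.card := by
    have h1 : (n : ℝ) ^ 4 ≤ (n : ℝ) ^ 17 := pow_le_pow_right₀ hn1 (by norm_num)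
    have h2 : 0 ≤ (n : ℝ) ^ 17 := by positivity
    linarith
  have h8 : 2 * ((n : ℝ) ^ 2 * (c / (c * (1 - 1 / n))) ^ n) ≤ 4 * (n : ℝ) ^ 4 := by
    have h1 : (n : ℝ) ^ 2 * (c / (c * (1 - 1 / n))) ^ n ≤ (n : ℝ) ^ 2 * 4 :=
      mul_le_mul_of_nonneg_left hca (by positivity)
    have h2 : (4 : ℝ) ≤ (n : ℝ) ^ 2 := by nlinarith
    have h3 : (n : ℝ) ^ 2 * 4 ≤ (n : ℝ) ^ 2 * (n : ℝ) ^ 2 :=
      mul_le_mul_of_nonneg_left h2 (by positivity)
    have h4 : (n : ℝ) ^ 2 * (n : ℝ) ^ 2 = (n : ℝ) ^ 4 := by ring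
    nlinarith [pow_nonneg hn0.le 4]
  have hAB : 16 * (n : ℝ) ^ 8 ≤ (R.card : ℝ) * C.card * c ^ n := by
    have hsh' : cc n ^ n / 3000 ≤ c ^ n := by
      rw [div_le_iff₀ (by norm_num)]
      linarith
    refine le_trans ?_ (mul_le_mul_of_nonneg_left hsh' (by positivity))
    rw [lc_cc_pow (by omega), div_div, mul_one_div, le_div_iff₀ (by positivity)]
    have h1 : ((n : ℝ) / Real.exp 1) * Real.sqrt 2 ^ n ≤ (n : ℝ) ^ 2 * C.card := hN.trans hC'
    have h2 : Real.exp 1 ≤ 2.75 := by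
      have := Real.exp_one_lt_d9
      linarith
    have h3 : (n : ℝ) * Real.sqrt 2 ^ n ≤ 2.75 * ((n : ℝ) ^ 2 * C.card) := by
      have h4 : (n : ℝ) * Real.sqrt 2 ^ n =
          Real.exp 1 * (((n : ℝ) / Real.exp 1) * Real.sqrt 2 ^ n) := by
        field_simp
      rw [h4]
      exact mul_le_mul h2 h1 (by positivity) (by norm_num)
    have h5 : Real.sqrt 2 ^ n ≤ 2.75 * ((n : ℝ) * C.card) := by
      have h6 : (n : ℝ) * Real.sqrt 2 ^ n ≤ (n : ℝ) * (2.75 * ((n : ℝ) * C.card)) := by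
        refine h3.trans (le_of_eq ?_)
        ring
      exact le_of_mul_le_mul_left h6 hn0
    calc 16 * (n : ℝ) ^ 8 * ((n : ℝ) ^ 8 * Real.sqrt 2 ^ n * 3000)
        = 48000 * (n : ℝ) ^ 16 * Real.sqrt 2 ^ n := by ring
      _ ≤ 48000 * (n : ℝ) ^ 16 * (2.75 * ((n : ℝ) * C.card)) :=
          mul_le_mul_of_nonneg_left h5 (by positivity)
      _ = 132000 * (n : ℝ) ^ 17 * C.card := by ring
      _ ≤ _ := mul_le_mul_of_nonneg_right hR' hCpos.le
  have h := lc_wrap hmeas hind b hRne hCne hc0.le (mul_pos hc0 hθ0) havg (by omega)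
    (h8.trans hR4) (h8.trans hC4)
  have h' := lc_EN2_block hc0 hRpos hCpos hn hR4 hC4 hAB
  linarith

end Pool.Agent.LCB
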