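import Mathlib
import Pool.Agent.LCB.Wrap

/-!
# A fixed set of `n` rows
-/

namespace Pool.Agent.LCB

open Finset MeasureTheory ProbabilityTheory Pool.Agent.Helper37.NoisyR

theorem lc_choose_le {γ n : ℕ} (h : n ≤ γ) : ∀ d ≤ n,
    (γ - d).choose (n - d) * γ ^ d ≤ γ.choose n * n ^ d := by
  intro d
  induction d with
  | zero => intro _; simp
  | succ d ih =>
    intro hd
    have h1 := ih (by omega)
    -- one step
    have h2 : (γ - (d + 1)).choose (n - (d + 1)) * (γ - d) = (γ - d).choose (n - d) * (n - d) := by
      obtain ⟨a, ha⟩ : ∃ a, γ - d = a + 1 := ⟨γ - d - 1, by omega⟩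
      obtain ⟨b, hb⟩ : ∃ b, n - d = b + 1 := ⟨n - d - 1, by omega⟩
      have ha' : γ - (d + 1) = a := by omega
      have hb' : n - (d + 1) = b := by omega
      rw [ha, hb, ha', hb', mul_comm]
      exact Nat.add_one_mul_choose_eq a b
    have h3 : (n - d) * γ ≤ n * (γ - d) := by
      obtain ⟨x, hx⟩ := Nat.exists_eq_add_of_le (show d ≤ n by omega)
      obtain ⟨y, hy⟩ := Nat.exists_eq_add_of_le h
      subst hx
      subst hy
      have e1 : d + x - d = x := by omega
      have e2 : d + x + y - d = x + y := by omega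
      rw [e1, e2]
      nlinarith
    have hpos : 0 < γ - d := by omega
    have h4 : (γ - (d + 1)).choose (n - (d + 1)) * γ ≤ (γ - d).choose (n - d) * n := by
      refine Nat.le_of_mul_le_mul_right ?_ hpos
      calc (γ - (d + 1)).choose (n - (d + 1)) * γ * (γ - d)
          = ((γ - (d + 1)).choose (n - (d + 1)) * (γ - d)) * γ := by ring
        _ = (γ - d).choose (n - d) * ((n - d) * γ) := by rw [h2]; ring
        _ ≤ (γ - d).choose (n - d) * (n * (γ - d)) := Nat.mul_le_mul_left _ h3
        _ = _ := by ring
    calc (γ - (d + 1)).choose (n - (d + 1)) * γ ^ (d + 1)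
        = ((γ - (d + 1)).choose (n - (d + 1)) * γ) * γ ^ d := by ring
      _ ≤ ((γ - d).choose (n - d) * n) * γ ^ d := Nat.mul_le_mul_right _ h4
      _ = ((γ - d).choose (n - d) * γ ^ d) * n := by ring
      _ ≤ (γ.choose n * n ^ d) * n := Nat.mul_le_mul_right _ h1
      _ = _ := by ring

theorem lc_supersets {α : Type*} [DecidableEq α] (C D : Finset α) (hD : D ⊆ C) {n : ℕ} :
    ((C.powersetCard n).filter (fun B => D ⊆ B)).card ≤
      (C.card - D.card).choose (n - D.card) := by
  rw [← card_sdiff_of_subset hD, ← card_powersetCard]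
  refine card_le_card_of_injOn (fun B => B \ D) ?_ ?_
  · intro B hB
    have hB' := mem_filter.1 (mem_coe.1 hB)
    rw [mem_powersetCard] at hB'
    refine mem_coe.2 (mem_powersetCard.2 ⟨sdiff_subset_sdiff hB'.1.1 (Subset.refl D), ?_⟩)
    simp only
    rw [card_sdiff_of_subset hB'.2, hB'.1.2]
  · intro B hB B' hB' h
    have hB1 := (mem_filter.1 (mem_coe.1 hB)).2
    have hB2 := (mem_filter.1 (mem_coe.1 hB')).2
    simp only at h
    rw [← union_sdiff_of_subset hB1, ← union_sdiff_of_subset hB2, h]

/-- Many columns in which `n` given rows have large probabilities. -/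
theorem lc_cols {N n : ℕ} {Ω : Type} [MeasurableSpace Ω] {μ : Measure Ω}
    [IsProbabilityMeasure μ] {X : Ω → Fin N → Fin N → Bool}
    (hmeas : ∀ i j, MeasurableSet {ω | X ω i j = true}) (hind : iIndepSet (EX X) μ) (b : Bool)
    {R C : Finset (Fin N)} (hR : R.card = n) (hn : 1 ≤ n) {c : ℝ} (hc : 0 < c) (hc1 : c ≤ 1)
    (hpr : ∀ i ∈ R, ∀ j ∈ C, c ≤ pr μ (EX X) b (i, j))
    (hC : (n : ℝ) ^ 2 ≤ C.card * c ^ n) :
    1 - 2 * ((n : ℝ) ^ 2 / (C.card * c ^ n)) ≤ μ.real {ω | HasRect (X ω) n} := by
  classical
  have hn' : (1 : ℝ) ≤ n := by exact_mod_cast hn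
  have hn0 : (0 : ℝ) < n := by linarith
  have hcn : 0 < c ^ n := by positivity
  have hcn1 : c ^ n ≤ 1 := pow_le_one₀ hc.le hc1
  have hCpos : (0 : ℝ) < C.card := by
    by_contra hcon
    push Not at hcon
    have : (C.card : ℝ) * c ^ n ≤ 0 := mul_nonpos_of_nonpos_of_nonneg hcon hcn.le
    nlinarith
  have hnC : n ≤ C.card := by
    have h1 : (n : ℝ) ≤ C.card := by
      have h2 : (C.card : ℝ) * c ^ n ≤ C.card := mul_le_of_le_one_right hCpos.le hcn1
      nlinarith
    exact_mod_cast h1
  set M : ℝ := (C.card.choose n : ℝ) with hM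
  have hMpos : 0 < M := by
    rw [hM]
    exact_mod_cast Nat.choose_pos hnC
  set w : Finset (Fin N) → ℝ := fun B => if B ∈ C.powersetCard n then 1 / M else 0 with hw
  have hw0 : ∀ B, 0 ≤ w B := by
    intro B
    simp only [hw]
    split_ifs
    · positivity
    · exact le_rfl
  have hw1 : ∑ B, w B = 1 := by
    simp only [hw]
    rw [← sum_filter, filter_univ_mem, sum_const, card_powersetCard, nsmul_eq_mul, ← hM,
      mul_one_div_cancel hMpos.ne']
  have hsupp : ∀ B, w B ≠ 0 → B ⊆ C ∧ B.card = n := by
    intro B hB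
    by_contra h
    refine hB ?_
    simp only [hw]
    rw [if_neg (fun h' => h (mem_powersetCard.1 h'))]
  have hprpos : ∀ i ∈ R, ∀ j ∈ C, 0 < pr μ (EX X) b (i, j) := fun i hi j hj =>
    hc.trans_le (hpr i hi j hj)
  set x : ℝ := (c ^ n)⁻¹ * (n / C.card) with hx
  have hx0 : 0 ≤ x := by positivity
  set H : Set Ω := {ω | HasRect (X ω) n} with hH
  have key : μ.real Hᶜ ≤ (1 + x) ^ n - 1 := by
    refine (lc_wsm (E := EX X) (fun e => hmeas e.1 e.2) hind (fun B : Finset (Fin N) => R ×ˢ B) b w hw0 hw1
      (fun B hB e he => ?_) Hᶜ (fun ω hω B hB => ?_)).trans ?_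
    · rw [mem_product] at he
      exact hprpos e.1 he.1 e.2 ((hsupp B hB).1 he.2)
    · by_contra hcon
      push Not at hcon
      refine hω ⟨R, B, hR, (hsupp B hB).2, b, fun i hi j hj => ?_⟩
      have h1 := hcon (i, j) (mem_product.2 ⟨hi, hj⟩)
      unfold ev EX at h1
      cases b
      · simpa using h1
      · simpa using h1
    -- correlations
    have hmain : ∀ B, w B ≠ 0 → ∑ B', w B' * bd μ (EX X) (fun B : Finset (Fin N) => R ×ˢ B)
        (fun _ => b) B B' ≤ (1 + x) ^ n - 1 := by
      intro B hB
      obtain ⟨hBC, hBn⟩ := hsupp B hB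
      have h1 : ∀ B', w B' * bd μ (EX X) (fun B : Finset (Fin N) => R ×ˢ B) (fun _ => b) B B' ≤
          ∑ D ∈ B.powerset, if 1 ≤ D.card then
            (if D ⊆ B' then w B' * ((c ^ n)⁻¹) ^ D.card else 0) else 0 := by
        intro B'
        have hnn : ∀ D : Finset (Fin N), (0 : ℝ) ≤ if 1 ≤ D.card then
            (if D ⊆ B' then w B' * ((c ^ n)⁻¹) ^ D.card else 0) else 0 := by
          intro D
          split_ifs
          · exact mul_nonneg (hw0 B') (by positivity)
          · exact le_rfl
          · exact le_rfl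
        unfold bd
        split_ifs with h
        · have h2 := h.2
          rw [product_inter_product] at h2 ⊢
          rw [inter_self] at h2 ⊢
          rw [nonempty_product] at h2
          refine le_trans ?_ (single_le_sum (fun D _ => hnn D)
            (mem_powerset.2 inter_subset_left : B ∩ B' ∈ _))
          rw [if_pos (show 1 ≤ (B ∩ B').card from card_pos.2 h2.2), if_pos inter_subset_right]
          refine mul_le_mul_of_nonneg_left ?_ (hw0 B')
          rw [prod_product, prod_comm]
          calc ∏ j ∈ B ∩ B', ∏ i ∈ R, (pr μ (EX X) b (i, j))⁻¹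
              ≤ ∏ _j ∈ B ∩ B', (c ^ n)⁻¹ := by
                refine prod_le_prod (fun j _ => prod_nonneg fun i _ =>
                  inv_nonneg.2 measureReal_nonneg) fun j hj => ?_
                rw [← inv_pow, ← hR, ← prod_const]
                refine prod_le_prod (fun i _ => inv_nonneg.2 measureReal_nonneg) fun i hi => ?_
                exact inv_anti₀ hc (hpr i hi j (hBC (mem_inter.1 hj).1))
            _ = _ := by rw [prod_const]
        · rw [mul_zero]
          exact sum_nonneg fun D _ => hnn D
      refine (sum_le_sum fun B' _ => h1 B').trans ?_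
      rw [sum_comm]
      have h2 : ∀ D ∈ B.powerset, ∑ B', (if 1 ≤ D.card then
          (if D ⊆ B' then w B' * ((c ^ n)⁻¹) ^ D.card else 0) else 0) ≤
          (if 1 ≤ D.card then x ^ D.card else 0) := by
        intro D hD
        rw [mem_powerset] at hD
        have hDn : D.card ≤ n := by
          rw [← hBn]
          exact card_le_card hD
        split_ifs with h
        · have h3 : ∑ B' : Finset (Fin N), (if D ⊆ B' then w B' * ((c ^ n)⁻¹) ^ D.card else 0) =
              (((C.powersetCard n).filter (fun B => D ⊆ B)).card : ℝ) *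
                (1 / M * ((c ^ n)⁻¹) ^ D.card) := by
            have h4 : ∀ B' : Finset (Fin N),
                (if D ⊆ B' then w B' * ((c ^ n)⁻¹) ^ D.card else 0) =
                if B' ∈ (C.powersetCard n).filter (fun B => D ⊆ B) then
                  1 / M * ((c ^ n)⁻¹) ^ D.card else 0 := by
              intro B'
              simp only [hw, mem_filter]
              by_cases hA : B' ∈ C.powersetCard n <;> by_cases hA' : D ⊆ B' <;>
              simp [hA, hA']
            simp_rw [h4]
            rw [← sum_filter, filter_univ_mem, sum_const, nsmul_eq_mul]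
          rw [h3]
          have h5 := lc_supersets C D (hD.trans hBC) (n := n)
          have h6 := lc_choose_le hnC D.card hDn
          have h7 : ((C.card - D.card).choose (n - D.card) : ℝ) ≤
              M * (n / C.card) ^ D.card := by
            rw [div_pow, ← mul_div_assoc, le_div_iff₀ (by positivity), hM]
            exact_mod_cast h6
          calc (((C.powersetCard n).filter (fun B => D ⊆ B)).card : ℝ) *
                (1 / M * ((c ^ n)⁻¹) ^ D.card)
              ≤ (M * (n / C.card) ^ D.card) * (1 / M * ((c ^ n)⁻¹) ^ D.card) := by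
                refine mul_le_mul_of_nonneg_right ?_ (by positivity)
                refine le_trans ?_ h7
                exact_mod_cast h5
            _ = x ^ D.card := by
                rw [hx, mul_pow]
                field_simp
        · simp
      refine (sum_le_sum h2).trans (le_of_eq ?_)
      rw [sum_powerset_apply_card (fun d : ℕ => if 1 ≤ d then x ^ d else 0), hBn]
      have h8 : (1 + x) ^ n = ∑ d ∈ range (n + 1), (n.choose d) • x ^ d := by
        rw [add_comm, add_pow]
        refine sum_congr rfl fun d _ => ?_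
        rw [one_pow, mul_one, nsmul_eq_mul, mul_comm]
      rw [h8, sum_range_succ', sum_range_succ']
      simp
    calc ∑ B, w B * ∑ B', w B' * bd μ (EX X) (fun B : Finset (Fin N) => R ×ˢ B)
            (fun _ => b) B B'
        ≤ ∑ B, w B * ((1 + x) ^ n - 1) := by
          refine sum_le_sum fun B _ => ?_
          by_cases hB : w B = 0
          · rw [hB, zero_mul, zero_mul]
          · exact mul_le_mul_of_nonneg_left (hmain B hB) (hw0 B)
      _ = _ := by rw [← sum_mul, hw1, one_mul]
  -- numerics
  have hnx : (n : ℝ) * x = (n : ℝ) ^ 2 / (C.card * c ^ n) := by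
    rw [hx]
    field_simp
  have hnx1 : (n : ℝ) * x ≤ 1 := by
    rw [hnx, div_le_one (by positivity)]
    exact hC
  have hpow : (1 + x) ^ n - 1 ≤ 2 * ((n : ℝ) * x) := by
    have h1 : (1 + x) ^ n ≤ Real.exp (n * x) := by
      have h2 : 1 + x ≤ Real.exp x := by
        have := Real.add_one_le_exp x
        linarith
      calc (1 + x) ^ n ≤ Real.exp x ^ n := pow_le_pow_left₀ (by positivity) h2 n
        _ = _ := by rw [← Real.exp_nat_mul]
    have h3 : Real.exp (n * x) ≤ 1 + 2 * (n * x) := by
      have h4 : 0 ≤ (n : ℝ) * x := by positivity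
      have h5 := Real.abs_exp_sub_one_le (x := (n : ℝ) * x) (by rwa [abs_of_nonneg h4])
      rw [abs_of_nonneg h4] at h5
      have := le_abs_self (Real.exp (n * x) - 1)
      linarith
    linarith
  have h1 : (1 : ℝ) ≤ μ.real H + μ.real Hᶜ := by
    have h2 := measureReal_union_le (μ := μ) H Hᶜ
    rw [Set.union_compl_self, probReal_univ] at h2
    exact h2
  rw [← hnx]
  linarith

end Pool.Agent.LCB
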