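import Mathlib
import Pool.Agent.LCB.Block

/-!
# Few extreme entries
-/

namespace Pool.Agent.LCB

open Finset MeasureTheory ProbabilityTheory Pool.Agent.Helper37.NoisyR Pool.Agent.Helper37.NoisyB

theorem lc_whole {N n : ℕ} {ε : ℝ} (hε : 0 < ε) {Ω : Type} [MeasurableSpace Ω] {μ : Measure Ω}
    [IsProbabilityMeasure μ] {X : Ω → Fin N → Fin N → Bool}
    (hmeas : ∀ i j, MeasurableSet {ω | X ω i j = true}) (hind : iIndepSet (EX X) μ)
    {V : Finset (Fin N)} (hV : (1 - 132000 / (n : ℝ)) * N ≤ V.card)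
    (hext : ∀ i ∈ V, (n : ℝ) ^ 2 * (univ.filter fun j => cc n < pr μ (EX X) true (i, j) ∨
      cc n < pr μ (EX X) false (i, j)).card ≤ 3 * N)
    (hn : 1000000 ≤ n) (hN : ((n : ℝ) / Real.exp 1) * Real.sqrt 2 ^ n ≤ N)
    (hN' : (1 + ε) * ((n : ℝ) / Real.exp 1) * Real.sqrt 2 ^ n ≤ (1 - 132003 / (n : ℝ)) * N) :
    1 - ((n : ℝ) + 1) ^ 2 * (2 * (Real.exp 1 * n * tt n ^ n) +
      2 * (Real.exp 1 * n) ^ 2 * ((1 + ε)⁻¹) ^ n) ≤ μ.real {ω | HasRect (X ω) n} := by
  classical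
  have hn' : (1000000 : ℝ) ≤ n := by exact_mod_cast hn
  have hn0 : (0 : ℝ) < n := by linarith
  have he := Real.exp_pos 1
  have hs2 : 0 < Real.sqrt 2 := Real.sqrt_pos.2 (by norm_num)
  have hNpos : (0 : ℝ) < N := lt_of_lt_of_le (by positivity) hN
  have hN0 : 0 < N := by exact_mod_cast hNpos
  have h44 : 132000 / (n : ℝ) ≤ 132000 / 1000000 := div_le_div_of_nonneg_left (by norm_num) (by norm_num) hn'
  have hVpos : (N : ℝ) / 2 ≤ V.card := by nlinarith
  have hVne : V.Nonempty := by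
    rw [← card_pos]
    have : (0 : ℝ) < V.card := by linarith
    exact_mod_cast this
  have hc0 : 0 < cc n := lc_cc_pos (by omega)
  set c : ℝ := cc n with hc
  set σ : ℝ := 1 - 3 / (n : ℝ) ^ 2 with hσ
  have hn2 : (0 : ℝ) < (n : ℝ) ^ 2 := by positivity
  have h3 : 3 / (n : ℝ) ^ 2 ≤ 3 / 10000 := by
    refine div_le_div_of_nonneg_left (by norm_num) (by norm_num) ?_
    nlinarith
  have h30 : 0 ≤ 3 / (n : ℝ) ^ 2 := by positivity
  have hσ0 : 0 < σ := by linarith
  have hσ1 : σ ≤ 1 := by linarith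
  -- a colour
  have hrow : ∀ i ∈ V, σ * N ≤ ∑ j, (min (pr μ (EX X) true (i, j)) c +
      min (pr μ (EX X) false (i, j)) c) := by
    intro i hi
    set W : Finset (Fin N) := univ.filter fun j => c < pr μ (EX X) true (i, j) ∨
      c < pr μ (EX X) false (i, j) with hW
    have hWc : (n : ℝ) ^ 2 * W.card ≤ 3 * N := hext i hi
    have h1 : ∀ j, (1 : ℝ) - (if j ∈ W then 1 else 0) ≤ min (pr μ (EX X) true (i, j)) c +
        min (pr μ (EX X) false (i, j)) c := by
      intro j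
      split_ifs with hj
      · rw [sub_self]
        exact add_nonneg (le_min measureReal_nonneg hc0.le) (le_min measureReal_nonneg hc0.le)
      · have h2 : ¬ (c < pr μ (EX X) true (i, j) ∨ c < pr μ (EX X) false (i, j)) := by
          intro h
          exact hj (mem_filter.2 ⟨mem_univ _, h⟩)
        push Not at h2
        rw [min_eq_left h2.1, min_eq_left h2.2, lc_pr_false hmeas]
        linarith
    refine le_trans ?_ (sum_le_sum fun j _ => h1 j)
    rw [sum_sub_distrib, sum_const, card_univ, Fintype.card_fin, sum_ite_mem, univ_inter,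
      sum_const, nsmul_eq_mul, nsmul_eq_mul, mul_one, mul_one]
    have h2 : (W.card : ℝ) ≤ 3 / (n : ℝ) ^ 2 * N := by
      rw [div_mul_eq_mul_div, le_div_iff₀ hn2]
      linarith
    rw [hσ]
    linarith
  have hcol : ∃ b, (V.card : ℝ) * (univ : Finset (Fin N)).card * (σ / 2) ≤
      ∑ i ∈ V, ∑ j ∈ (univ : Finset (Fin N)), min (pr μ (EX X) b (i, j)) c := by
    by_contra hcon
    push Not at hcon
    have h1 := hcon true
    have h2 := hcon false
    have h4 : ∑ i ∈ V, ∑ j, min (pr μ (EX X) true (i, j)) c +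
        ∑ i ∈ V, ∑ j, min (pr μ (EX X) false (i, j)) c =
        ∑ i ∈ V, ∑ j, (min (pr μ (EX X) true (i, j)) c +
          min (pr μ (EX X) false (i, j)) c) := by
      simp_rw [sum_add_distrib]
    have h5 : (V.card : ℝ) * (σ * N) ≤ ∑ i ∈ V, ∑ j, (min (pr μ (EX X) true (i, j)) c +
          min (pr μ (EX X) false (i, j)) c) := by
      rw [← nsmul_eq_mul, ← sum_const]
      exact sum_le_sum hrow
    rw [card_univ, Fintype.card_fin] at h1 h2
    have h6 : (V.card : ℝ) * N * (σ / 2) + (V.card : ℝ) * N * (σ / 2) =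
        (V.card : ℝ) * (σ * N) := by ring
    linarith
  obtain ⟨b, hb⟩ := hcol
  have hUne : (univ : Finset (Fin N)).Nonempty := ⟨⟨0, hN0⟩, mem_univ _⟩
  -- powers of σ
  have hσn : 1 - 3 / (n : ℝ) ≤ σ ^ n := by
    have h1 := one_add_mul_le_pow (show (-2 : ℝ) ≤ -(3 / (n : ℝ) ^ 2) by linarith) n
    have h2 : (n : ℝ) * -(3 / (n : ℝ) ^ 2) = -(3 / n) := by
      field_simp
    rw [h2] at h1
    have h4 : 1 + -(3 / (n : ℝ) ^ 2) = σ := by rw [hσ]; ring
    rw [h4] at h1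
    linarith
  have h3n : 3 / (n : ℝ) ≤ 3 / 1000000 := div_le_div_of_nonneg_left (by norm_num) (by norm_num) hn'
  have h3n0 : 0 ≤ 3 / (n : ℝ) := by positivity
  have hσn2 : 1 / 2 ≤ σ ^ n := by linarith
  -- small conditions
  have hca : (c / (σ / 2)) ^ n ≤ 2 * (Real.sqrt 2 ^ n / (n : ℝ) ^ 8) := by
    have h1 : c / (σ / 2) = (2 * c) / σ := by
      field_simp
    rw [h1, div_pow, mul_pow, hc, lc_cc_pow (by omega), div_le_iff₀ (by positivity)]
    have h2 : (2 : ℝ) ^ n = Real.sqrt 2 ^ n * Real.sqrt 2 ^ n := by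
      rw [← mul_pow, Real.mul_self_sqrt (by norm_num)]
    have h4 : (2 : ℝ) ^ n * (1 / ((n : ℝ) ^ 8 * Real.sqrt 2 ^ n)) =
        Real.sqrt 2 ^ n / (n : ℝ) ^ 8 := by
      rw [h2]
      field_simp
    rw [h4]
    have h5 : 0 ≤ Real.sqrt 2 ^ n / (n : ℝ) ^ 8 := by positivity
    nlinarith
  have hsm : 2 * ((n : ℝ) ^ 2 * (c / (σ / 2)) ^ n) ≤ N / 2 := by
    have h1 : 2 * ((n : ℝ) ^ 2 * (c / (σ / 2)) ^ n) ≤
        2 * ((n : ℝ) ^ 2 * (2 * (Real.sqrt 2 ^ n / (n : ℝ) ^ 8))) :=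
      mul_le_mul_of_nonneg_left (mul_le_mul_of_nonneg_left hca (by positivity)) (by norm_num)
    refine h1.trans ?_
    have h2 : 2 * ((n : ℝ) ^ 2 * (2 * (Real.sqrt 2 ^ n / (n : ℝ) ^ 8))) =
        (4 / (n : ℝ) ^ 6) * Real.sqrt 2 ^ n := by
      field_simp
      try ring
    rw [h2]
    have h4 : 4 / (n : ℝ) ^ 6 ≤ ((n : ℝ) / Real.exp 1) / 2 := by
      have h5 := Real.exp_one_lt_d9
      have h6 : (1 : ℝ) ≤ (n : ℝ) ^ 6 := one_le_pow₀ (by linarith)
      have h7 : 4 / (n : ℝ) ^ 6 ≤ 4 := div_le_self (by norm_num) h6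
      have h8 : 8 ≤ (n : ℝ) / Real.exp 1 := by
        rw [le_div_iff₀ he]
        nlinarith
      linarith
    calc (4 / (n : ℝ) ^ 6) * Real.sqrt 2 ^ n ≤ (((n : ℝ) / Real.exp 1) / 2) * Real.sqrt 2 ^ n :=
          mul_le_mul_of_nonneg_right h4 (by positivity)
      _ = (((n : ℝ) / Real.exp 1) * Real.sqrt 2 ^ n) / 2 := by ring
      _ ≤ _ := by linarith
  have hcardU : ((univ : Finset (Fin N)).card : ℝ) = N := by
    rw [card_univ, Fintype.card_fin]
  have h := lc_wrap hmeas hind b hVne hUne hc0.le (half_pos hσ0) hb (by omega)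
    (hsm.trans hVpos) (by rw [hcardU]; linarith)
  -- the error
  have hVc : (0 : ℝ) < V.card := by linarith
  set N' : ℝ := (1 - 132003 / (n : ℝ)) * N with hN'def
  have h47 : 132003 / (n : ℝ) ≤ 132003 / 1000000 := div_le_div_of_nonneg_left (by norm_num) (by norm_num) hn'
  have hN'0 : 0 < N' := mul_pos (by linarith) hNpos
  have hNA : N' ≤ σ ^ n * V.card := by
    have h440 : 0 ≤ 132000 / (n : ℝ) := by positivity
    calc N' ≤ (1 - 3 / (n : ℝ)) * ((1 - 132000 / (n : ℝ)) * N) := by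
          rw [hN'def, ← mul_assoc]
          refine mul_le_mul_of_nonneg_right ?_ hNpos.le
          have h5 : 132003 / (n : ℝ) = 3 / (n : ℝ) + 132000 / (n : ℝ) := by ring
          nlinarith [mul_nonneg h3n0 h440]
      _ ≤ σ ^ n * ((1 - 132000 / (n : ℝ)) * N) :=
          mul_le_mul_of_nonneg_right hσn (mul_nonneg (by linarith) hNpos.le)
      _ ≤ _ := mul_le_mul_of_nonneg_left hV (by positivity)
  have hNB : N' ≤ σ ^ n * (univ : Finset (Fin N)).card := by
    rw [hcardU]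
    refine hNA.trans (mul_le_mul_of_nonneg_left ?_ (by positivity))
    have h5 : V.card ≤ Fintype.card (Fin N) := card_le_univ V
    rw [Fintype.card_fin] at h5
    exact_mod_cast h5
  have h1 := lc_EN2_le (c := c) (A := V.card) (B := (univ : Finset (Fin N)).card) (n := n)
    hc0.le hVc (by rw [hcardU]; exact hNpos) hN'0 hσ0 hσ1 hNA hNB
  have h2 := nb_EN_A (c := c) (N := N') (t := tt n) (ε := ε) (n := n) hc0.le
    (lc_tt_pos (by omega)).le hε (lc_two_cc n).le (by omega) hN' (by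
      rw [lc_tt_pow (by omega)]
      have h5 := Real.exp_one_lt_d9
      rw [mul_one_div, div_le_one (by positivity)]
      have h6 : (n : ℝ) ^ 4 = (n : ℝ) ^ 2 * (n : ℝ) ^ 2 := by ring
      rw [h6]
      refine mul_le_mul_of_nonneg_right ?_ hn2.le
      nlinarith)
  linarith

end Pool.Agent.LCB
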