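import Mathlib
import Pool.Agent.LCB.Whole

/-!
# Random matrices with few types of rows: upper bound
-/

namespace Pool.Agent.LCB

open Finset MeasureTheory ProbabilityTheory Filter Pool.Agent.Helper37.NoisyR
  Pool.Agent.Helper37.NoisyB

/-- The rows whose class is small. -/
theorem lc_small_rows {N K m : ℕ} (t : Fin N → Fin K) :
    (univ.filter fun i => ¬ m ≤ (univ.filter fun i' => t i' = t i).card).card ≤ m * K := by
  classical
  have h1 : (univ.filter fun i => ¬ m ≤ (univ.filter fun i' => t i' = t i).card) ⊆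
      (univ : Finset (Fin K)).biUnion fun k =>
        if m ≤ (univ.filter fun i' => t i' = k).card then ∅ else
          univ.filter fun i' => t i' = k := by
    intro i hi
    rw [mem_filter] at hi
    rw [mem_biUnion]
    refine ⟨t i, mem_univ _, ?_⟩
    rw [if_neg hi.2, mem_filter]
    exact ⟨mem_univ _, rfl⟩
  refine (card_le_card h1).trans (card_biUnion_le.trans ?_)
  calc ∑ k : Fin K, (if m ≤ (univ.filter fun i' => t i' = k).card then (∅ : Finset (Fin N)) else
          univ.filter fun i' => t i' = k).card ≤ ∑ _k : Fin K, m := by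
        refine sum_le_sum fun k _ => ?_
        split_ifs with h
        · simp
        · omega
    _ = m * K := by
        rw [sum_const, card_univ, Fintype.card_fin, smul_eq_mul, mul_comm]

/-- The centre of a type, seen from colour `b`. -/
def base {K N : ℕ} (p : Fin K → Fin N → ℝ) (b : Bool) (k : Fin K) (j : Fin N) : ℝ :=
  if b then p k j else 1 - p k j

theorem lc_base {K N : ℕ} {Ω : Type} [MeasurableSpace Ω] {μ : Measure Ω}
    [IsProbabilityMeasure μ] {X : Ω → Fin N → Fin N → Bool}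
    (hmeas : ∀ i j, MeasurableSet {ω | X ω i j = true}) (p : Fin K → Fin N → ℝ) (b : Bool)
    (k : Fin K) (i j : Fin N) : |pr μ (EX X) b (i, j) - base p b k j| =
      |μ.real {ω | X ω i j = true} - p k j| := by
  cases b
  · rw [lc_pr_false hmeas, lc_pr_true]
    simp only [base, Bool.false_eq_true, if_false]
    rw [show 1 - μ.real {ω | X ω i j = true} - (1 - p k j) =
      -(μ.real {ω | X ω i j = true} - p k j) by ring, abs_neg]
  · rw [lc_pr_true]
    simp only [base, if_true]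

/-- Exceptional columns of a row. -/
theorem lc_bad {K N n : ℕ} {Ω : Type} [MeasurableSpace Ω] {μ : Measure Ω}
    [IsProbabilityMeasure μ] {X : Ω → Fin N → Fin N → Bool}
    (hmeas : ∀ i j, MeasurableSet {ω | X ω i j = true}) {t : Fin N → Fin K}
    {p : Fin K → Fin N → ℝ} (hp : ∀ i, n ^ 3 * Nat.card {j : Fin N //
      1 / (n : ℝ) < |μ.real {ω | X ω i j = true} - p (t i) j|} ≤ N) (b : Bool) (i : Fin N) :
    n ^ 3 * (univ.filter fun j => 1 / (n : ℝ) <
      |pr μ (EX X) b (i, j) - base p b (t i) j|).card ≤ N := by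
  classical
  refine le_trans (Nat.mul_le_mul_left _ ?_) (hp i)
  rw [Nat.card_eq_fintype_card, Fintype.card_subtype]
  refine card_le_card fun j hj => ?_
  rw [mem_filter] at hj ⊢
  rw [lc_base hmeas] at hj
  exact hj

theorem lc_core {K N n : ℕ} {ε : ℝ} (hε : 0 < ε) (hn : 1000000 ≤ n) (hcc : 1 / 2 ≤ cc n)
    (hN : ((n : ℝ) / Real.exp 1) * Real.sqrt 2 ^ n ≤ N) (hN4 : 4 * (n : ℝ) ^ 6 ≤ N)
    (hN' : (1 + ε) * ((n : ℝ) / Real.exp 1) * Real.sqrt 2 ^ n ≤ (1 - 132003 / (n : ℝ)) * N)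
    (hK : n ^ 18 * K ≤ N) {Ω : Type} [MeasurableSpace Ω] {μ : Measure Ω}
    [IsProbabilityMeasure μ] {X : Ω → Fin N → Fin N → Bool} (hX : IsTyped K n μ X) :
    1 - max (((n : ℝ) + 1) ^ 2 * (2 / (n : ℝ) ^ 4))
      (((n : ℝ) + 1) ^ 2 * (2 * (Real.exp 1 * n * tt n ^ n) +
      2 * (Real.exp 1 * n) ^ 2 * ((1 + ε)⁻¹) ^ n)) ≤ μ.real {ω | HasRect (X ω) n} := by
  classical
  obtain ⟨hmeas, hind, t, p, hp⟩ := hX
  have hn' : (1000000 : ℝ) ≤ n := by exact_mod_cast hn
  have hn0 : (0 : ℝ) < n := by linarith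
  have hNpos : (0 : ℝ) < N := lt_of_lt_of_le (by positivity) hN4
  have hbad := lc_bad hmeas hp
  by_cases hcase : ∃ k b, 132000 * n ^ 17 ≤ (univ.filter fun i => t i = k).card ∧
      N ≤ n ^ 2 * (univ.filter fun j => cc n - 1 / n < base p b k j).card
  · obtain ⟨k, b, h1, h2⟩ := hcase
    have h := lc_block (R := univ.filter fun i => t i = k) hmeas hind b (base p b k)
      (fun i hi => by
        have h3 := hbad b i
        rw [(mem_filter.1 hi).2] at h3
        exact h3) (by omega) hcc h1 h2 hN hN4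
    refine le_trans ?_ h
    have := le_max_left (((n : ℝ) + 1) ^ 2 * (2 / (n : ℝ) ^ 4))
      (((n : ℝ) + 1) ^ 2 * (2 * (Real.exp 1 * n * tt n ^ n) +
      2 * (Real.exp 1 * n) ^ 2 * ((1 + ε)⁻¹) ^ n))
    linarith
  push Not at hcase
  set V : Finset (Fin N) := univ.filter fun i =>
    132000 * n ^ 17 ≤ (univ.filter fun i' => t i' = t i).card with hVdef
  have hVcard : (1 - 132000 / (n : ℝ)) * N ≤ V.card := by
    have h1 := lc_small_rows (m := 132000 * n ^ 17) t
    have h2 := card_filter_add_card_filter_not (s := (univ : Finset (Fin N)))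
      (fun i => 132000 * n ^ 17 ≤ (univ.filter fun i' => t i' = t i).card)
    rw [card_univ, Fintype.card_fin] at h2
    have h3 : (N : ℝ) ≤ V.card + 132000 * (n : ℝ) ^ 17 * K := by
      have h4 : N ≤ V.card + 132000 * n ^ 17 * K := by
        rw [hVdef]
        omega
      exact_mod_cast h4
    have h4 : 132000 * (n : ℝ) ^ 17 * K ≤ 132000 / (n : ℝ) * N := by
      rw [div_mul_eq_mul_div, le_div_iff₀ hn0]
      have h5 : (n : ℝ) ^ 18 * K ≤ N := by exact_mod_cast hK
      calc 132000 * (n : ℝ) ^ 17 * K * n = 132000 * ((n : ℝ) ^ 18 * K) := by ring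
        _ ≤ 132000 * (N : ℝ) := by linarith
    linarith
  have h := lc_whole (V := V) hε hmeas hind hVcard (fun i hi => ?_) hn hN hN'
  · refine le_trans ?_ h
    have := le_max_right (((n : ℝ) + 1) ^ 2 * (2 / (n : ℝ) ^ 4))
      (((n : ℝ) + 1) ^ 2 * (2 * (Real.exp 1 * n * tt n ^ n) +
      2 * (Real.exp 1 * n) ^ 2 * ((1 + ε)⁻¹) ^ n))
    linarith
  · rw [hVdef, mem_filter] at hi
    have hT := hcase (t i) true hi.2
    have hF := hcase (t i) false hi.2
    have hsub : (univ.filter fun j => cc n < pr μ (EX X) true (i, j) ∨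
        cc n < pr μ (EX X) false (i, j)) ⊆
        (univ.filter fun j => 1 / (n : ℝ) < |pr μ (EX X) true (i, j) - base p true (t i) j|) ∪
        ((univ.filter fun j => cc n - 1 / n < base p true (t i) j) ∪
          (univ.filter fun j => cc n - 1 / n < base p false (t i) j)) := by
      intro j hj
      rw [mem_filter] at hj
      rw [mem_union, mem_union, mem_filter, mem_filter, mem_filter]
      by_cases h1 : 1 / (n : ℝ) < |pr μ (EX X) true (i, j) - base p true (t i) j|
      · exact Or.inl ⟨mem_univ _, h1⟩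
      · refine Or.inr ?_
        rw [not_lt] at h1
        rcases hj.2 with h2 | h2
        · left
          refine ⟨mem_univ _, ?_⟩
          have h3 := (abs_le.1 h1).2
          linarith
        · right
          refine ⟨mem_univ _, ?_⟩
          have h3 : |pr μ (EX X) false (i, j) - base p false (t i) j| ≤ 1 / n := by
            rw [lc_base hmeas]
            rwa [lc_base hmeas] at h1
          have h4 := (abs_le.1 h3).2
          linarith
    have h1 := (card_le_card hsub).trans ((card_union_le _ _).trans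
      (Nat.add_le_add_left (card_union_le _ _) _))
    have h2 : n ^ 2 * (univ.filter fun j => 1 / (n : ℝ) <
        |pr μ (EX X) true (i, j) - base p true (t i) j|).card ≤ N := by
      refine le_trans (Nat.mul_le_mul_right _ ?_) (hbad true i)
      exact Nat.pow_le_pow_right (by omega) (by norm_num)
    have h3 : n ^ 2 * (univ.filter fun j => cc n < pr μ (EX X) true (i, j) ∨
        cc n < pr μ (EX X) false (i, j)).card ≤ 3 * N := by
      have h4 := Nat.mul_le_mul_left (n ^ 2) h1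
      rw [Nat.mul_add, Nat.mul_add] at h4
      omega
    exact_mod_cast h3

theorem lc_hom {ε : ℝ} (hε : 0 < ε) : ∀ᶠ n : ℕ in atTop, ∀ K N : ℕ,
    (1 + ε) * (n / Real.exp 1) * Real.sqrt 2 ^ n ≤ N → n ^ 18 * K ≤ N → HomT K ε N n := by
  have he := Real.exp_pos 1
  have hinv0 : 0 ≤ (1 + ε / 2)⁻¹ := by positivity
  have hinv1 : (1 + ε / 2)⁻¹ < 1 := inv_lt_one_of_one_lt₀ (by linarith)
  have hlin : Tendsto (fun n : ℕ => (1 : ℝ) / n) atTop (nhds 0) :=
    tendsto_one_div_atTop_nhds_zero_nat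
  have E1 : ∀ᶠ n : ℕ in atTop, 132003 / (n : ℝ) * (1 + ε) ≤ ε / 2 := by
    have h1 := hlin.const_mul (132003 * (1 + ε))
    rw [mul_zero] at h1
    refine (h1.congr fun n => ?_).eventually_le_const (half_pos hε)
    ring
  have E2 : ∀ᶠ n : ℕ in atTop, ((n : ℝ) + 1) ^ 2 * (2 / (n : ℝ) ^ 4) ≤ ε := by
    have h1 := hlin.const_mul 8
    rw [mul_zero] at h1
    filter_upwards [h1.eventually_le_const hε, eventually_ge_atTop 1] with n h2 hn
    have hn' : (1 : ℝ) ≤ n := by exact_mod_cast hn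
    refine le_trans ?_ h2
    rw [mul_one_div, mul_div_assoc', div_le_div_iff₀ (by positivity) (by positivity)]
    have h3 : ((n : ℝ) + 1) ^ 2 ≤ 4 * (n : ℝ) ^ 2 := by nlinarith
    have h4 : (n : ℝ) ^ 3 ≤ (n : ℝ) ^ 4 := pow_le_pow_right₀ hn' (by norm_num)
    calc ((n : ℝ) + 1) ^ 2 * 2 * n ≤ 4 * (n : ℝ) ^ 2 * 2 * n := by
          refine mul_le_mul_of_nonneg_right ?_ (by positivity)
          linarith
      _ = 8 * (n : ℝ) ^ 3 := by ring
      _ ≤ _ := by linarith
  have E3 : ∀ᶠ n : ℕ in atTop, ((n : ℝ) + 1) ^ 2 * (2 * (Real.exp 1 * n * tt n ^ n) +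
      2 * (Real.exp 1 * n) ^ 2 * ((1 + ε / 2)⁻¹) ^ n) ≤ ε := by
    have h1 := hlin.const_mul (8 * Real.exp 1)
    have h4 := (nr_lim hinv0 hinv1 4).const_mul (2 * Real.exp 1 ^ 2)
    have h5 := (nr_lim hinv0 hinv1 3).const_mul (4 * Real.exp 1 ^ 2)
    have h6 := (nr_lim hinv0 hinv1 2).const_mul (2 * Real.exp 1 ^ 2)
    have h7 := h1.add ((h4.add h5).add h6)
    simp only [mul_zero, add_zero] at h7
    filter_upwards [h7.eventually_le_const hε, eventually_ge_atTop 1] with n h8 hn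
    have hn' : (1 : ℝ) ≤ n := by exact_mod_cast hn
    refine le_trans ?_ h8
    rw [lc_tt_pow hn, mul_add]
    refine add_le_add ?_ (le_of_eq (by ring))
    have h3 : ((n : ℝ) + 1) ^ 2 ≤ 4 * (n : ℝ) ^ 2 := by nlinarith
    calc ((n : ℝ) + 1) ^ 2 * (2 * (Real.exp 1 * n * (1 / (n : ℝ) ^ 4)))
        ≤ 4 * (n : ℝ) ^ 2 * (2 * (Real.exp 1 * n * (1 / (n : ℝ) ^ 4))) :=
          mul_le_mul_of_nonneg_right h3 (by positivity)
      _ = 8 * Real.exp 1 * (1 / n) := by
          field_simp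
          try ring
  have E4 : ∀ᶠ n : ℕ in atTop, 4 * (n : ℝ) ^ 6 ≤ (n : ℝ) / Real.exp 1 * Real.sqrt 2 ^ n := by
    have hs2 : (1 : ℝ) < Real.sqrt 2 := by
      rw [Real.lt_sqrt (by norm_num)]
      norm_num
    have h1 := (nr_lim (r := (Real.sqrt 2)⁻¹) (by positivity)
      (inv_lt_one_of_one_lt₀ hs2) 6).const_mul 4
    rw [mul_zero] at h1
    filter_upwards [h1.eventually_le_const (show (0 : ℝ) < 1 / Real.exp 1 by positivity),
      eventually_ge_atTop 1] with n h2 hn
    have hn' : (1 : ℝ) ≤ n := by exact_mod_cast hn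
    have hsn : 0 < Real.sqrt 2 ^ n := by positivity
    rw [inv_pow] at h2
    have h3 : 4 * (n : ℝ) ^ 6 ≤ 1 / Real.exp 1 * Real.sqrt 2 ^ n := by
      calc 4 * (n : ℝ) ^ 6 = 4 * ((n : ℝ) ^ 6 * (Real.sqrt 2 ^ n)⁻¹) * Real.sqrt 2 ^ n := by
            field_simp
        _ ≤ _ := mul_le_mul_of_nonneg_right h2 hsn.le
    refine h3.trans ?_
    refine mul_le_mul_of_nonneg_right ?_ hsn.le
    exact div_le_div_of_nonneg_right hn' he.le
  have E5 : ∀ᶠ n : ℕ in atTop, 1 / 2 ≤ cc n := by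
    have h2 : Tendsto (fun n : ℕ => ((n : ℝ) ^ (-(1 : ℝ) / n)) ^ 4) atTop (nhds (1 ^ 4)) :=
      (tendsto_rpow_neg_div.comp tendsto_natCast_atTop_atTop).pow 4
    have h3 : Tendsto (fun n : ℕ => tt n) atTop (nhds (1 ^ 4)) := by
      refine h2.congr fun n => ?_
      unfold tt
      rw [← Real.rpow_natCast, ← Real.rpow_mul (Nat.cast_nonneg n)]
      congr 1
      push_cast
      ring
    have h1 : Tendsto (fun n : ℕ => cc n) atTop (nhds ((1 ^ 4) ^ 2 / Real.sqrt 2)) :=
      (h3.pow 2).div_const (Real.sqrt 2)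
    have h4 : (1 : ℝ) / 2 < (1 ^ 4) ^ 2 / Real.sqrt 2 := by
      have hs2 : 0 < Real.sqrt 2 := Real.sqrt_pos.2 (by norm_num)
      rw [one_pow, one_pow, lt_div_iff₀ hs2]
      have h3 : Real.sqrt 2 < 2 := by
        rw [Real.sqrt_lt' (by norm_num)]
        norm_num
      linarith
    exact (h1.eventually_const_lt h4).mono fun n h => h.le
  filter_upwards [E1, E2, E3, E4, E5, eventually_ge_atTop 1000000] with n E1 E2 E3 E4 E5 hn K N
    hN hK
  intro Ω _ μ _ X hX
  have hn' : (1000000 : ℝ) ≤ n := by exact_mod_cast hn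
  have hn0 : (0 : ℝ) < n := by linarith
  have hs2 : 0 < Real.sqrt 2 := Real.sqrt_pos.2 (by norm_num)
  have hY : 0 < ((n : ℝ) / Real.exp 1) * Real.sqrt 2 ^ n := by positivity
  have hN1 : ((n : ℝ) / Real.exp 1) * Real.sqrt 2 ^ n ≤ N := by
    refine le_trans ?_ hN
    rw [mul_assoc]
    exact le_mul_of_one_le_left hY.le (by linarith)
  have h47 : 132003 / (n : ℝ) ≤ 132003 / 1000000 := div_le_div_of_nonneg_left (by norm_num) (by norm_num) hn'
  have hN' : (1 + ε / 2) * ((n : ℝ) / Real.exp 1) * Real.sqrt 2 ^ n ≤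
      (1 - 132003 / (n : ℝ)) * N := by
    calc (1 + ε / 2) * ((n : ℝ) / Real.exp 1) * Real.sqrt 2 ^ n
        ≤ (1 - 132003 / (n : ℝ)) * (1 + ε) * (((n : ℝ) / Real.exp 1) * Real.sqrt 2 ^ n) := by
          rw [mul_assoc]
          refine mul_le_mul_of_nonneg_right ?_ hY.le
          nlinarith
      _ = (1 - 132003 / (n : ℝ)) * ((1 + ε) * (n / Real.exp 1) * Real.sqrt 2 ^ n) := by ring
      _ ≤ _ := mul_le_mul_of_nonneg_left hN (by linarith)
  have h := lc_core (half_pos hε) hn E5 hN1 (E4.trans hN1) hN' hK hX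
  have hmax : max (((n : ℝ) + 1) ^ 2 * (2 / (n : ℝ) ^ 4))
      (((n : ℝ) + 1) ^ 2 * (2 * (Real.exp 1 * n * tt n ^ n) +
      2 * (Real.exp 1 * n) ^ 2 * ((1 + ε / 2)⁻¹) ^ n)) ≤ ε := max_le E2 E3
  linarith

end Pool.Agent.LCB
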