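import Mathlib
import Pool.Agent.LCB.Core

/-!
# Few extreme entries, exponential rate
-/

namespace Pool.Agent.LCB

open Finset MeasureTheory ProbabilityTheory Pool.Agent.Helper37.NoisyR Pool.Agent.Helper37.NoisyB

/-- The error term in the exponential regime. -/
theorem lc_EN2_exp {c a A B β t δ : ℝ} (hc : 0 ≤ c) (ha : 0 < a) (hβ : 0 < β) (ht : 0 ≤ t)
    (ht1 : t ≤ 1) (h1 : c ≤ t ^ 2 * (a * β)) (h2 : 1 ≤ t ^ 2 * (a * β ^ 2)) (hδ : 0 < δ)
    (hδ1 : δ ≤ 1) {n : ℕ} (hA : δ * β ^ n ≤ A) (hB : β ^ n ≤ B)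
    (hx : (n : ℝ) ^ 2 * δ⁻¹ * t ^ n ≤ 1) :
    EN2 c a A B n ≤ ((n : ℝ) + 1) ^ 2 * (2 * ((n : ℝ) ^ 2 * δ⁻¹ * t ^ n) ^ 2) := by
  set x : ℝ := (n : ℝ) ^ 2 * δ⁻¹ * t ^ n with hxdef
  have hx0 : 0 ≤ x := by positivity
  have hA0 : 0 < A := lt_of_lt_of_le (by positivity) hA
  have hB0 : 0 < B := lt_of_lt_of_le (by positivity) hB
  have hδi : 1 ≤ δ⁻¹ := (one_le_inv₀ hδ).2 hδ1
  have key : ∀ r ∈ range (n + 1), ∀ s ∈ range (n + 1),
      (if 1 ≤ r ∧ 1 ≤ s then (n.choose r : ℝ) * (n.choose s) * GG2 c a A B n r s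
        else 0) ≤ 2 * x ^ 2 := by
    intro r hr s hs
    rw [mem_range] at hr hs
    have hrn : r ≤ n := by omega
    have hsn : s ≤ n := by omega
    split_ifs with h
    swap
    · positivity
    have h4 : (n.choose r : ℝ) ≤ (n : ℝ) ^ r := by exact_mod_cast Nat.choose_le_pow n r
    have h5 : (n.choose s : ℝ) ≤ (n : ℝ) ^ s := by exact_mod_cast Nat.choose_le_pow n s
    have h6 : (n.descFactorial r : ℝ) ≤ (n : ℝ) ^ r := by
      exact_mod_cast Nat.descFactorial_le_pow n r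
    have h7 : (n.descFactorial s : ℝ) ≤ (n : ℝ) ^ s := by
      exact_mod_cast Nat.descFactorial_le_pow n s
    set f : ℕ := r * (n - s) + (n - r) * s with hf
    have hexp := nb_expo hrn hsn
    rw [← hf] at hexp
    have hexp2 : n * r + (n - r) * s = f + r * s := by
      have : r * (n - s) + r * s = n * r := by
        rw [← Nat.mul_add, Nat.sub_add_cancel hsn, mul_comm]
      omega
    -- the sizes
    have e1 : (a ^ n)⁻¹ / A ≤ δ⁻¹ * ((a ^ n)⁻¹ * (β ^ n)⁻¹) := by
      rw [div_le_iff₀ hA0]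
      calc (a ^ n)⁻¹ = δ⁻¹ * ((a ^ n)⁻¹ * (β ^ n)⁻¹) * (δ * β ^ n) := by
            have := hδ.ne'
            field_simp
        _ ≤ _ := mul_le_mul_of_nonneg_left hA (by positivity)
    have e2 : (a ^ (n - r))⁻¹ / B ≤ δ⁻¹ * ((a ^ (n - r))⁻¹ * (β ^ n)⁻¹) := by
      rw [div_le_iff₀ hB0]
      calc (a ^ (n - r))⁻¹ = 1 * ((a ^ (n - r))⁻¹ * (β ^ n)⁻¹) * β ^ n := by
            field_simp
        _ ≤ δ⁻¹ * ((a ^ (n - r))⁻¹ * (β ^ n)⁻¹) * B := by
            refine mul_le_mul ?_ hB (by positivity) (by positivity)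
            exact mul_le_mul_of_nonneg_right hδi (by positivity)
    have e3 : ((a ^ n)⁻¹ / A) ^ r * ((a ^ (n - r))⁻¹ / B) ^ s * c ^ f ≤
        (δ⁻¹) ^ (r + s) * t ^ (n * (r + s)) := by
      calc ((a ^ n)⁻¹ / A) ^ r * ((a ^ (n - r))⁻¹ / B) ^ s * c ^ f
          ≤ (δ⁻¹ * ((a ^ n)⁻¹ * (β ^ n)⁻¹)) ^ r *
            (δ⁻¹ * ((a ^ (n - r))⁻¹ * (β ^ n)⁻¹)) ^ s * (t ^ 2 * (a * β)) ^ f := by
            refine mul_le_mul (mul_le_mul ?_ ?_ (by positivity) (by positivity)) ?_
              (by positivity) (by positivity)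
            · exact pow_le_pow_left₀ (by positivity) e1 r
            · exact pow_le_pow_left₀ (by positivity) e2 s
            · exact pow_le_pow_left₀ hc h1 f
        _ = (δ⁻¹) ^ (r + s) * ((a⁻¹) ^ (n * r + (n - r) * s) * (β⁻¹) ^ (n * (r + s)) *
            ((t ^ 2) ^ f * (a * β) ^ f)) := by
            rw [mul_pow δ⁻¹, mul_pow δ⁻¹, mul_pow (a ^ n)⁻¹, mul_pow (a ^ (n - r))⁻¹,
              mul_pow (t ^ 2), ← inv_pow, ← inv_pow, ← inv_pow, ← pow_mul, ← pow_mul,
              ← pow_mul, ← pow_mul, pow_add a⁻¹, mul_add n r s, pow_add β⁻¹, pow_add δ⁻¹]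
            ring
        _ = (δ⁻¹) ^ (r + s) * ((t ^ 2) ^ f * ((a * β ^ 2)⁻¹) ^ (r * s)) := by
            rw [hexp2, ← hexp]
            have e4 : (a⁻¹) ^ (f + r * s) * (β⁻¹) ^ (f + 2 * (r * s)) * ((t ^ 2) ^ f *
                (a * β) ^ f) = (t ^ 2) ^ f * (((a⁻¹ * β⁻¹) * (a * β)) ^ f *
                  ((a * β ^ 2)⁻¹) ^ (r * s)) := by
              rw [mul_inv a (β ^ 2), ← inv_pow β 2, mul_pow a⁻¹ (β⁻¹ ^ 2), ← pow_mul β⁻¹ 2,
                mul_pow (a⁻¹ * β⁻¹), mul_pow a⁻¹ β⁻¹, pow_add a⁻¹, pow_add β⁻¹]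
              ring
            rw [e4]
            have e5 : a⁻¹ * β⁻¹ * (a * β) = 1 := by
              field_simp
            rw [e5, one_pow, one_mul]
        _ ≤ (δ⁻¹) ^ (r + s) * ((t ^ 2) ^ f * (t ^ 2) ^ (r * s)) := by
            refine mul_le_mul_of_nonneg_left ?_ (by positivity)
            refine mul_le_mul_of_nonneg_left ?_ (by positivity)
            refine pow_le_pow_left₀ (by positivity) ?_ _
            rw [inv_le_iff_one_le_mul₀ (by positivity)]
            linarith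
        _ = (δ⁻¹) ^ (r + s) * t ^ (2 * (f + r * s)) := by
            rw [← pow_add, ← pow_mul]
        _ ≤ _ := by
            refine mul_le_mul_of_nonneg_left ?_ (by positivity)
            refine pow_le_pow_of_le_one ht ht1 ?_
            rw [← hexp]
            omega
    calc (n.choose r : ℝ) * (n.choose s) * GG2 c a A B n r s
        = 2 * (((n.choose r : ℝ) * (n.choose s)) * ((n.descFactorial r : ℝ) *
          n.descFactorial s) * (((a ^ n)⁻¹ / A) ^ r * ((a ^ (n - r))⁻¹ / B) ^ s * c ^ f)) := by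
          unfold GG2
          rw [← hf]
          ring
      _ ≤ 2 * (((n : ℝ) ^ r * (n : ℝ) ^ s) * ((n : ℝ) ^ r * (n : ℝ) ^ s) *
          ((δ⁻¹) ^ (r + s) * t ^ (n * (r + s)))) := by
          refine mul_le_mul_of_nonneg_left ?_ (by norm_num)
          refine mul_le_mul (mul_le_mul (mul_le_mul h4 h5 (by positivity) (by positivity))
            (mul_le_mul h6 h7 (by positivity) (by positivity)) (by positivity)
            (by positivity)) e3 (by positivity) (by positivity)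
      _ = 2 * x ^ (r + s) := by
          rw [hxdef, mul_pow, mul_pow, ← pow_mul, ← pow_mul]
          have e6 : (n : ℝ) ^ (2 * (r + s)) = (n : ℝ) ^ r * (n : ℝ) ^ s *
              ((n : ℝ) ^ r * (n : ℝ) ^ s) := by ring
          rw [e6]
          ring
      _ ≤ 2 * x ^ 2 := by
          refine mul_le_mul_of_nonneg_left ?_ (by norm_num)
          exact pow_le_pow_of_le_one hx0 hx (by omega)
  unfold EN2
  refine (sum_le_sum fun r hr => sum_le_sum fun s hs => key r hr s hs).trans (le_of_eq ?_)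
  rw [sum_const, sum_const, card_range, smul_smul, nsmul_eq_mul]
  push_cast
  ring

theorem lc_genA {N n : ℕ} {c s β t δ : ℝ} (hs1 : s ≤ 1) (hn : 1 ≤ n)
    (hc : 1 / 2 ≤ c) (hc1 : c ≤ 1) (hβ : 0 < β) (ht : 0 ≤ t) (ht1 : t ≤ 1)
    (h1 : c ≤ t ^ 2 * ((1 - s * (1 - c)) / 2 * β))
    (h2 : 1 ≤ t ^ 2 * ((1 - s * (1 - c)) / 2 * β ^ 2)) (hδ : 0 < δ) (hδ1 : δ ≤ 1)
    (hN : β ^ n ≤ N) (hx : 2 * ((n : ℝ) ^ 2 * δ⁻¹ * t ^ n) ≤ 1)
    {V : Finset (Fin N)} (hV : δ * N ≤ V.card)
    {Ω : Type} [MeasurableSpace Ω] {μ : Measure Ω}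
    [IsProbabilityMeasure μ] {X : Ω → Fin N → Fin N → Bool}
    (hmeas : ∀ i j, MeasurableSet {ω | X ω i j = true}) (hind : iIndepSet (EX X) μ)
    (hT : ∑ i ∈ V, ((univ.filter fun j => c < pr μ (EX X) true (i, j)).card : ℝ) +
      ∑ i ∈ V, ((univ.filter fun j => c < pr μ (EX X) false (i, j)).card : ℝ) ≤
      s * (V.card * N)) :
    1 - ((n : ℝ) + 1) ^ 2 * (2 * ((n : ℝ) ^ 2 * δ⁻¹ * t ^ n) ^ 2) ≤
      μ.real {ω | HasRect (X ω) n} := by
  classical
  have hNpos : (0 : ℝ) < N := lt_of_lt_of_le (by positivity) hN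
  have hN0 : 0 < N := by exact_mod_cast hNpos
  have hn' : (1 : ℝ) ≤ n := by exact_mod_cast hn
  have hc0 : 0 < c := by linarith
  have hVpos : (0 : ℝ) < V.card := lt_of_lt_of_le (by positivity) hV
  have hVne : V.Nonempty := by
    rw [← card_pos]
    exact_mod_cast hVpos
  set a : ℝ := (1 - s * (1 - c)) / 2 with ha
  have ha0 : 0 < a := by
    have : s * (1 - c) ≤ 1 * (1 / 2) := mul_le_mul hs1 (by linarith) (by linarith) (by norm_num)
    rw [ha]
    linarith
  have hrow : ∀ i, (N : ℝ) - (1 - c) *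
      (((univ.filter fun j => c < pr μ (EX X) true (i, j)).card : ℝ) +
      ((univ.filter fun j => c < pr μ (EX X) false (i, j)).card : ℝ)) ≤
      ∑ j, (min (pr μ (EX X) true (i, j)) c + min (pr μ (EX X) false (i, j)) c) := by
    intro i
    have h1 : ∀ j, (1 : ℝ) - (1 - c) * ((if c < pr μ (EX X) true (i, j) then 1 else 0) +
        (if c < pr μ (EX X) false (i, j) then 1 else 0)) ≤
        min (pr μ (EX X) true (i, j)) c + min (pr μ (EX X) false (i, j)) c := by
      intro j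
      have hf := lc_pr_false (μ := μ) hmeas (i, j)
      have q0 : 0 ≤ pr μ (EX X) true (i, j) := measureReal_nonneg
      have q1 : 0 ≤ pr μ (EX X) false (i, j) := measureReal_nonneg
      split_ifs with a1 a2 a2
      · linarith
      · rw [not_lt] at a2
        rw [min_eq_right a1.le, min_eq_left a2]
        linarith
      · rw [not_lt] at a1
        rw [min_eq_left a1, min_eq_right a2.le]
        linarith
      · rw [not_lt] at a1 a2
        rw [min_eq_left a1, min_eq_left a2]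
        linarith
    refine le_trans (le_of_eq ?_) (sum_le_sum fun j _ => h1 j)
    rw [sum_sub_distrib, ← mul_sum, sum_add_distrib, sum_const, card_univ, Fintype.card_fin,
      nsmul_eq_mul, mul_one, card_filter, card_filter]
    push_cast
    rfl
  have hcol : ∃ b, (V.card : ℝ) * (univ : Finset (Fin N)).card * a ≤
      ∑ i ∈ V, ∑ j ∈ (univ : Finset (Fin N)), min (pr μ (EX X) b (i, j)) c := by
    by_contra hcon
    push Not at hcon
    have h1 := hcon true
    have h2 := hcon false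
    rw [card_univ, Fintype.card_fin] at h1 h2
    have h4 : ∑ i ∈ V, ∑ j, min (pr μ (EX X) true (i, j)) c +
        ∑ i ∈ V, ∑ j, min (pr μ (EX X) false (i, j)) c =
        ∑ i ∈ V, ∑ j, (min (pr μ (EX X) true (i, j)) c +
          min (pr μ (EX X) false (i, j)) c) := by
      simp_rw [sum_add_distrib]
    have h5 := sum_le_sum fun (i : Fin N) (_ : i ∈ V) => hrow i
    rw [sum_sub_distrib, ← mul_sum, sum_add_distrib, sum_const, nsmul_eq_mul] at h5
    have h6 : (1 - c) * (∑ i ∈ V, ((univ.filter fun j => c < pr μ (EX X) true (i, j)).card : ℝ) +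
      ∑ i ∈ V, ((univ.filter fun j => c < pr μ (EX X) false (i, j)).card : ℝ)) ≤
      (1 - c) * (s * (V.card * N)) := mul_le_mul_of_nonneg_left hT (by linarith)
    have h7 : (V.card : ℝ) * N * a + (V.card : ℝ) * N * a =
        V.card * N - (1 - c) * (s * (V.card * N)) := by
      rw [ha]
      ring
    linarith
  obtain ⟨b, hb⟩ := hcol
  have hUne : (univ : Finset (Fin N)).Nonempty := ⟨⟨0, hN0⟩, mem_univ _⟩
  have hcardU : ((univ : Finset (Fin N)).card : ℝ) = N := by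
    rw [card_univ, Fintype.card_fin]
  have hVβ : δ * β ^ n ≤ V.card := (mul_le_mul_of_nonneg_left hN hδ.le).trans hV
  -- small conditions
  have hca : (c / a) ^ n ≤ t ^ n * β ^ n := by
    have h3 : c / a ≤ t ^ 2 * β := by
      rw [div_le_iff₀ ha0]
      linarith
    have h4 : t ^ 2 * β ≤ t * β := by
      refine mul_le_mul_of_nonneg_right ?_ hβ.le
      rw [sq]
      exact mul_le_of_le_one_left ht ht1
    calc (c / a) ^ n ≤ (t * β) ^ n := pow_le_pow_left₀ (by positivity) (h3.trans h4) n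
      _ = _ := mul_pow _ _ _
  have hsm : 2 * ((n : ℝ) ^ 2 * (c / a) ^ n) ≤ δ * β ^ n := by
    calc 2 * ((n : ℝ) ^ 2 * (c / a) ^ n) ≤ 2 * ((n : ℝ) ^ 2 * (t ^ n * β ^ n)) :=
          mul_le_mul_of_nonneg_left (mul_le_mul_of_nonneg_left hca (by positivity)) (by norm_num)
      _ = (2 * ((n : ℝ) ^ 2 * δ⁻¹ * t ^ n)) * (δ * β ^ n) := by
          have := hδ.ne'
          field_simp
      _ ≤ 1 * (δ * β ^ n) := mul_le_mul_of_nonneg_right hx (by positivity)
      _ = _ := one_mul _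
  have hδN : δ * β ^ n ≤ N := by
    refine le_trans ?_ hN
    exact mul_le_of_le_one_left (by positivity) hδ1
  have h := lc_wrap hmeas hind b hVne hUne hc0.le ha0 hb hn
    (hsm.trans hVβ) (by rw [hcardU]; exact hsm.trans hδN)
  have h3 := lc_EN2_exp (A := V.card) (B := (univ : Finset (Fin N)).card) (n := n) hc0.le ha0 hβ
    ht ht1 h1 h2 hδ hδ1 hVβ (by rw [hcardU]; exact hN) (by
      have : 0 ≤ (n : ℝ) ^ 2 * δ⁻¹ * t ^ n := by positivity
      linarith)
  linarith

end Pool.Agent.LCB
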