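import Mathlib

/-!
# Groups of equal size and greedy choice
-/

namespace Pool.Agent.LCB

open Finset

/-- Disjoint groups of `m` elements of the same type, covering all but `(m - 1) * K`
elements. -/
theorem lc_groups {α : Type*} [DecidableEq α] {K : ℕ} (t : α → Fin K) {m : ℕ} (hm : 1 ≤ m) :
    ∀ (v : ℕ) (V : Finset α), V.card = v → ∃ G : Finset (Finset α),
      (∀ g ∈ G, g ⊆ V ∧ g.card = m ∧ ∀ i ∈ g, ∀ i' ∈ g, t i = t i') ∧
      (∀ g ∈ G, ∀ g' ∈ G, g ≠ g' → Disjoint g g') ∧ V.card ≤ (m - 1) * K + m * G.card := by
  intro v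
  induction v using Nat.strong_induction_on with
  | _ v ih =>
    intro V hV
    by_cases h : ∃ κ, m ≤ (V.filter fun i => t i = κ).card
    · obtain ⟨κ, hκ⟩ := h
      obtain ⟨g, hg, hgm⟩ := exists_subset_card_eq hκ
      have hgV : g ⊆ V := hg.trans (filter_subset _ _)
      have hcard : (V \ g).card = V.card - m := by
        rw [card_sdiff_of_subset hgV, hgm]
      have hmV : m ≤ V.card := by
        rw [← hgm]
        exact card_le_card hgV
      obtain ⟨G, h1, h2, h3⟩ := ih (V.card - m) (by omega) (V \ g) hcard
      have hne : g.Nonempty := by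
        rw [← card_pos]
        omega
      have hdis : ∀ g' ∈ G, Disjoint g g' := by
        intro g' hg'
        rw [disjoint_left]
        intro i hi hi'
        exact (mem_sdiff.1 ((h1 g' hg').1 hi')).2 hi
      have hgG : g ∉ G := by
        intro hgG
        have := hdis g hgG
        rw [disjoint_self_iff_empty] at this
        exact hne.ne_empty this
      refine ⟨insert g G, ?_, ?_, ?_⟩
      · intro g' hg'
        rw [mem_insert] at hg'
        rcases hg' with rfl | hg'
        · refine ⟨hgV, hgm, fun i hi i' hi' => ?_⟩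
          rw [(mem_filter.1 (hg hi)).2, (mem_filter.1 (hg hi')).2]
        · exact ⟨(h1 g' hg').1.trans sdiff_subset, (h1 g' hg').2⟩
      · intro a ha b hb hab
        rw [mem_insert] at ha hb
        rcases ha with rfl | ha
        · rcases hb with rfl | hb
          · exact absurd rfl hab
          · exact hdis b hb
        · rcases hb with rfl | hb
          · exact (hdis a ha).symm
          · exact h2 a ha b hb hab
      · rw [card_insert_of_notMem hgG]
        rw [hcard] at h3
        have : m * (G.card + 1) = m * G.card + m := by ring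
        omega
    · push Not at h
      refine ⟨∅, by simp, by simp, ?_⟩
      have h1 : V.card = ∑ κ : Fin K, (V.filter fun i => t i = κ).card :=
        card_eq_sum_card_fiberwise (fun i _ => mem_univ _)
      rw [h1]
      simp only [card_empty, mul_zero, add_zero]
      calc ∑ κ : Fin K, (V.filter fun i => t i = κ).card ≤ ∑ _κ : Fin K, (m - 1) :=
            sum_le_sum fun κ _ => Nat.le_sub_one_of_lt (h κ)
        _ = (m - 1) * K := by rw [sum_const, card_univ, Fintype.card_fin, smul_eq_mul, mul_comm]

/-- Greedy choice of `k` groups with a large common neighbourhood. -/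
theorem lc_greedy {β κ : Type*} [DecidableEq β] [DecidableEq κ] (E : β → Finset κ) {γ M : ℝ}
    (hγ : 0 < γ) : ∀ (k : ℕ) (G : Finset β) (W : Finset κ), (G.card : ℝ) ≤ M →
      W.Nonempty → (∀ j ∈ W, γ * M + k ≤ ((G.filter fun g => j ∈ E g).card : ℝ)) →
      ∃ S ⊆ G, ∃ C ⊆ W, S.card = k ∧ γ ^ k * W.card ≤ C.card ∧
        ∀ j ∈ C, ∀ g ∈ S, j ∈ E g := by
  intro k
  induction k with
  | zero =>
    intro G W _ _ _
    refine ⟨∅, empty_subset _, W, Subset.refl W, card_empty, ?_, ?_⟩
    · simp
    · simp
  | succ k ih =>
    intro G W hG hW hdeg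
    have hWpos : (0 : ℝ) < W.card := by exact_mod_cast card_pos.2 hW
    -- double counting
    have hsum : ∑ g ∈ G, ((W.filter fun j => j ∈ E g).card : ℝ) =
        ∑ j ∈ W, ((G.filter fun g => j ∈ E g).card : ℝ) := by
      have h1 : ∀ g ∈ G, ((W.filter fun j => j ∈ E g).card : ℝ) =
          ∑ j ∈ W, if j ∈ E g then (1 : ℝ) else 0 := by
        intro g _
        rw [card_filter]
        push_cast
        rfl
      have h2 : ∀ j ∈ W, ((G.filter fun g => j ∈ E g).card : ℝ) =
          ∑ g ∈ G, if j ∈ E g then (1 : ℝ) else 0 := by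
        intro j _
        rw [card_filter]
        push_cast
        rfl
      rw [sum_congr rfl h1, sum_congr rfl h2, sum_comm]
    obtain ⟨g, hg, hgW⟩ : ∃ g ∈ G, γ * W.card ≤ ((W.filter fun j => j ∈ E g).card : ℝ) := by
      by_contra hcon
      push Not at hcon
      have h1 : ∑ g ∈ G, ((W.filter fun j => j ∈ E g).card : ℝ) ≤ G.card * (γ * W.card) := by
        rw [← nsmul_eq_mul, ← sum_const]
        exact sum_le_sum fun g hg => (hcon g hg).le
      have h2 : (W.card : ℝ) * (γ * M + (k + 1 : ℕ)) ≤
          ∑ j ∈ W, ((G.filter fun g => j ∈ E g).card : ℝ) := by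
        rw [← nsmul_eq_mul, ← sum_const]
        exact sum_le_sum hdeg
      have h3 : (G.card : ℝ) * (γ * W.card) ≤ M * (γ * W.card) :=
        mul_le_mul_of_nonneg_right hG (by positivity)
      have h4 : (W.card : ℝ) * (γ * M + (k + 1 : ℕ)) =
          M * (γ * W.card) + W.card * ((k + 1 : ℕ) : ℝ) := by ring
      have h5 : (0 : ℝ) < W.card * ((k + 1 : ℕ) : ℝ) := by positivity
      linarith
    set W' : Finset κ := W.filter fun j => j ∈ E g with hW'
    have hW'pos : (0 : ℝ) < W'.card := lt_of_lt_of_le (by positivity) hgW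
    have hW'ne : W'.Nonempty := by
      rw [← card_pos]
      exact_mod_cast hW'pos
    obtain ⟨S, hS, C, hCW, hSk, hSW, hCS⟩ := ih (G.erase g) W' (by
        refine le_trans ?_ hG
        exact_mod_cast card_le_card (erase_subset g G)) hW'ne (by
      intro j hj
      have h1 := hdeg j (mem_filter.1 hj).1
      have h2 : (G.filter fun g => j ∈ E g).card ≤
          ((G.erase g).filter fun g => j ∈ E g).card + 1 := by
        have h3 : (G.filter fun g => j ∈ E g) ⊆
            insert g ((G.erase g).filter fun g => j ∈ E g) := by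
          intro g' hg'
          rw [mem_filter] at hg'
          rw [mem_insert, mem_filter, mem_erase]
          by_cases h : g' = g
          · exact Or.inl h
          · exact Or.inr ⟨⟨h, hg'.1⟩, hg'.2⟩
        exact (card_le_card h3).trans (card_insert_le _ _)
      have h4 : ((G.filter fun g => j ∈ E g).card : ℝ) ≤
          ((G.erase g).filter fun g => j ∈ E g).card + 1 := by exact_mod_cast h2
      push_cast at h1
      linarith)
    have hgS : g ∉ S := fun h => (mem_erase.1 (hS h)).1 rfl
    refine ⟨insert g S, ?_, C, hCW.trans (filter_subset _ _), ?_, ?_, ?_⟩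
    · intro g' hg'
      rw [mem_insert] at hg'
      rcases hg' with rfl | hg'
      · exact hg
      · exact (mem_erase.1 (hS hg')).2
    · rw [card_insert_of_notMem hgS, hSk]
    · calc γ ^ (k + 1) * W.card = γ ^ k * (γ * W.card) := by ring
        _ ≤ γ ^ k * W'.card := mul_le_mul_of_nonneg_left hgW (by positivity)
        _ ≤ _ := hSW
    · intro j hj g' hg'
      rw [mem_insert] at hg'
      rcases hg' with rfl | hg'
      · exact (mem_filter.1 (hCW hj)).2
      · exact hCS j hj g' hg'

end Pool.Agent.LCB
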