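import Mathlib
import Pool.Agent.LCB.Cols
import Pool.Agent.LCB.Groups
import Pool.Agent.LCB.Core

/-!
# Many extreme entries and groups of constant size
-/

namespace Pool.Agent.LCB

open Finset MeasureTheory ProbabilityTheory Pool.Agent.Helper37.NoisyR

theorem lc_genB {K N n m : ℕ} {c s γ η : ℝ} (hm : 1 ≤ m) (hγ : 0 < γ) (hη : 0 < η)
    (hs : γ + 3 * η ≤ s) (hn : 8 ≤ n) (hc : 1 / 2 ≤ c) (hc1 : c ≤ 1) (hN0 : 0 < N)
    (hmn : (m : ℝ) / n ^ 3 ≤ η)
    {Ω : Type} [MeasurableSpace Ω] {μ : Measure Ω}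
    [IsProbabilityMeasure μ] {X : Ω → Fin N → Fin N → Bool}
    (hmeas : ∀ i j, MeasurableSet {ω | X ω i j = true}) (hind : iIndepSet (EX X) μ) (b : Bool)
    {t : Fin N → Fin K} {bs : Fin K → Fin N → ℝ}
    (hbad : ∀ i, n ^ 3 * (univ.filter fun j => 1 / (n : ℝ) <
      |pr μ (EX X) b (i, j) - bs (t i) j|).card ≤ N)
    {G : Finset (Finset (Fin N))}
    (hG1 : ∀ g ∈ G, g.card = m ∧ ∀ i ∈ g, ∀ i' ∈ g, t i = t i')
    (hG2 : ∀ g ∈ G, ∀ g' ∈ G, g ≠ g' → Disjoint g g') (hG0 : 0 < G.card)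
    (hkN : ((n / m + 1 : ℕ) : ℝ) ≤ η * G.card)
    (hT : s * (((G.biUnion id).card : ℝ) * N) ≤
      ∑ i ∈ G.biUnion id, ((univ.filter fun j => c < pr μ (EX X) b (i, j)).card : ℝ))
    (hbig : (n : ℝ) ^ 2 ≤ γ ^ (n / m + 1) * (η * N) * (c - 2 / n) ^ n) :
    1 - 2 * ((n : ℝ) ^ 2 / (γ ^ (n / m + 1) * (η * N) * (c - 2 / n) ^ n)) ≤
      μ.real {ω | HasRect (X ω) n} := by
  classical
  have hn' : (8 : ℝ) ≤ n := by exact_mod_cast hn
  have hn0 : (0 : ℝ) < n := by linarith
  have hm' : (1 : ℝ) ≤ m := by exact_mod_cast hm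
  have hm0 : (0 : ℝ) < m := by linarith
  have hNpos : (0 : ℝ) < N := by exact_mod_cast hN0
  obtain ⟨hsh0, _⟩ := lc_shift hn hc
  set c' : ℝ := c - 2 / n with hc'
  have hc'1 : c' ≤ 1 := by
    have : 0 ≤ 2 / (n : ℝ) := by positivity
    linarith
  set M : ℝ := (G.card : ℝ) with hM
  have hM0 : 0 < M := by
    rw [hM]
    exact_mod_cast hG0
  -- the union of the groups
  set Un : Finset (Fin N) := G.biUnion id with hUn
  have hUcard : Un.card = m * G.card := by
    rw [hUn, card_biUnion]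
    · have h1 : ∀ g ∈ G, (id g).card = m := fun g hg => (hG1 g hg).1
      rw [sum_congr rfl h1, sum_const, smul_eq_mul, mul_comm]
    · intro g hg g' hg' hne
      exact hG2 g hg g' hg' hne
  have hUcardR : (Un.card : ℝ) = m * M := by
    rw [hUcard, hM]
    push_cast
    ring
  -- neighbourhoods
  set E : Finset (Fin N) → Finset (Fin N) := fun g =>
    univ.filter fun j => ∀ i ∈ g, c' < pr μ (EX X) b (i, j) with hE
  set Ex : Fin N → Finset (Fin N) := fun i =>
    univ.filter fun j => c < pr μ (EX X) b (i, j) with hEx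
  set Bd : Fin N → Finset (Fin N) := fun i =>
    univ.filter fun j => 1 / (n : ℝ) < |pr μ (EX X) b (i, j) - bs (t i) j| with hBd
  have hBdc : ∀ i, ((Bd i).card : ℝ) ≤ N / n ^ 3 := by
    intro i
    rw [le_div_iff₀ (by positivity)]
    have h1 : (n : ℝ) ^ 3 * (Bd i).card ≤ N := by exact_mod_cast hbad i
    linarith
  have hsub : ∀ g ∈ G, ∀ i ∈ g, Ex i ⊆ E g ∪ g.biUnion Bd := by
    intro g hg i hi j hj
    have hj1 : c < pr μ (EX X) b (i, j) := (mem_filter.1 hj).2
    rw [mem_union, mem_biUnion]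
    by_cases h : ∃ i' ∈ g, j ∈ Bd i'
    · exact Or.inr h
    · push Not at h
      left
      rw [hE, mem_filter]
      refine ⟨mem_univ _, fun i' hi' => ?_⟩
      have h1 : |pr μ (EX X) b (i, j) - bs (t i) j| ≤ 1 / n := by
        by_contra hne
        exact h i hi (mem_filter.2 ⟨mem_univ _, not_le.1 hne⟩)
      have h2 : |pr μ (EX X) b (i', j) - bs (t i') j| ≤ 1 / n := by
        by_contra hne
        exact h i' hi' (mem_filter.2 ⟨mem_univ _, not_le.1 hne⟩)
      have htt : t i = t i' := (hG1 g hg).2 i hi i' hi'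
      rw [← htt] at h2
      have h3 := (abs_le.1 h1).2
      have h4 := (abs_le.1 h2).1
      have h5 : 2 / (n : ℝ) = 1 / n + 1 / n := by ring
      rw [hc', h5]
      linarith
  have hEx1 : ∀ g ∈ G, ∀ i ∈ g, ((Ex i).card : ℝ) ≤ (E g).card + m * (N / n ^ 3) := by
    intro g hg i hi
    have h1 := (card_le_card (hsub g hg i hi)).trans (card_union_le _ _)
    have h2 : ((g.biUnion Bd).card : ℝ) ≤ m * (N / n ^ 3) := by
      have h3 : ((g.biUnion Bd).card : ℝ) ≤ ∑ i' ∈ g, ((Bd i').card : ℝ) := by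
        exact_mod_cast card_biUnion_le
      refine h3.trans ((sum_le_sum fun i' _ => hBdc i').trans (le_of_eq ?_))
      rw [sum_const, (hG1 g hg).1, nsmul_eq_mul]
    have h4 : ((Ex i).card : ℝ) ≤ (E g).card + (g.biUnion Bd).card := by exact_mod_cast h1
    linarith
  -- sum over the rows
  have hsum1 : ∑ i ∈ Un, ((Ex i).card : ℝ) ≤
      m * ∑ g ∈ G, ((E g).card : ℝ) + m * M * (m * (N / n ^ 3)) := by
    have h2 : ∑ i ∈ Un, ((Ex i).card : ℝ) = ∑ g ∈ G, ∑ i ∈ g, ((Ex i).card : ℝ) := by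
      rw [hUn, sum_biUnion]
      · rfl
      · intro g hg g' hg' hne
        exact hG2 g hg g' hg' hne
    have h3 : ∑ g ∈ G, ∑ i ∈ g, ((Ex i).card : ℝ) ≤
        ∑ g ∈ G, (m * ((E g).card : ℝ) + m * (m * (N / n ^ 3))) := by
      refine sum_le_sum fun g hg => ?_
      refine (sum_le_sum fun i hi => hEx1 g hg i hi).trans (le_of_eq ?_)
      rw [sum_const, (hG1 g hg).1, nsmul_eq_mul]
      ring
    have h4 : ∑ g ∈ G, (m * ((E g).card : ℝ) + m * (m * (N / n ^ 3))) =
        m * ∑ g ∈ G, ((E g).card : ℝ) + m * M * (m * (N / n ^ 3)) := by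
      rw [sum_add_distrib, sum_const, nsmul_eq_mul, mul_sum]
      ring
    linarith
  have hsum2 : (γ + 2 * η) * M * N ≤ ∑ g ∈ G, ((E g).card : ℝ) := by
    have h1 : (m : ℝ) * M * (m * (N / n ^ 3)) ≤ m * M * (η * N) := by
      refine mul_le_mul_of_nonneg_left ?_ (by positivity)
      calc (m : ℝ) * (N / n ^ 3) = (m / n ^ 3) * N := by ring
        _ ≤ _ := mul_le_mul_of_nonneg_right hmn hNpos.le
    have h3 : (γ + 3 * η) * (m * M * N) ≤
        m * ∑ g ∈ G, ((E g).card : ℝ) + m * M * (η * N) := by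
      have h4 := hT.trans hsum1
      rw [hUcardR] at h4
      have h5 : (γ + 3 * η) * (m * M * N) ≤ s * (m * M * N) :=
        mul_le_mul_of_nonneg_right hs (by positivity)
      linarith
    have h4 : (m : ℝ) * ((γ + 2 * η) * M * N) ≤ m * ∑ g ∈ G, ((E g).card : ℝ) := by
      have h5 : (m : ℝ) * ((γ + 2 * η) * M * N) =
          (γ + 3 * η) * (m * M * N) - m * M * (η * N) := by ring
      linarith
    exact le_of_mul_le_mul_left h4 hm0
  -- good columns
  set W : Finset (Fin N) := univ.filter fun j =>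
    (γ + η) * M ≤ ((G.filter fun g => j ∈ E g).card : ℝ) with hW
  have hdc : ∑ g ∈ G, ((E g).card : ℝ) = ∑ j, ((G.filter fun g => j ∈ E g).card : ℝ) := by
    have h1 : ∀ g ∈ G, ((E g).card : ℝ) = ∑ j, if j ∈ E g then (1 : ℝ) else 0 := by
      intro g _
      rw [sum_ite_mem, univ_inter, sum_const, nsmul_eq_mul, mul_one]
    have h2 : ∀ j ∈ (univ : Finset (Fin N)), ((G.filter fun g => j ∈ E g).card : ℝ) =
        ∑ g ∈ G, if j ∈ E g then (1 : ℝ) else 0 := by
      intro j _
      rw [card_filter]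
      push_cast
      rfl
    rw [sum_congr rfl h1, sum_congr rfl h2, sum_comm]
  have hWcard : η * N ≤ W.card := by
    have h1 : ∑ j, ((G.filter fun g => j ∈ E g).card : ℝ) ≤
        ∑ j, ((if j ∈ W then M else 0) + (γ + η) * M) := by
      refine sum_le_sum fun j _ => ?_
      split_ifs with h
      · have h2 : ((G.filter fun g => j ∈ E g).card : ℝ) ≤ G.card := by
          exact_mod_cast card_filter_le _ _
        have h3 : 0 ≤ (γ + η) * M := by positivity
        linarith
      · have h2 : ¬ (γ + η) * M ≤ ((G.filter fun g => j ∈ E g).card : ℝ) := fun h' =>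
          h (mem_filter.2 ⟨mem_univ _, h'⟩)
        rw [zero_add]
        exact (not_le.1 h2).le
    rw [sum_add_distrib, sum_ite_mem, univ_inter, sum_const, sum_const, nsmul_eq_mul,
      nsmul_eq_mul, card_univ, Fintype.card_fin, ← hdc] at h1
    have h2 := hsum2.trans h1
    have h3 : η * N * M ≤ W.card * M := by
      have h4 : (γ + 2 * η) * M * N = η * N * M + N * ((γ + η) * M) := by ring
      linarith
    exact le_of_mul_le_mul_right h3 hM0
  have hWne : W.Nonempty := by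
    rw [← card_pos]
    have : (0 : ℝ) < W.card := lt_of_lt_of_le (by positivity) hWcard
    exact_mod_cast this
  set k : ℕ := n / m + 1 with hk
  obtain ⟨S, hSG, C, _, hSk, hSW, hCS⟩ := lc_greedy E (γ := γ) (M := M) hγ k G W le_rfl hWne
    (by
      intro j hj
      refine le_trans ?_ (mem_filter.1 hj).2
      linarith)
  -- the rows
  have hRcard : n ≤ (S.biUnion id).card := by
    rw [card_biUnion]
    · have h0 : ∀ g ∈ S, (id g).card = m := fun g hg => (hG1 g (hSG hg)).1
      rw [sum_congr rfl h0, sum_const, smul_eq_mul, hSk, hk]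
      have h1 := Nat.div_add_mod n m
      have h2 := Nat.mod_lt n (show 0 < m by omega)
      have h3 : (n / m + 1) * m = m * (n / m) + m := by ring
      omega
    · intro g hg g' hg' hne
      exact hG2 g (hSG hg) g' (hSG hg') hne
  obtain ⟨R, hRS, hRn⟩ := exists_subset_card_eq hRcard
  have hpr : ∀ i ∈ R, ∀ j ∈ C, c' ≤ pr μ (EX X) b (i, j) := by
    intro i hi j hj
    have h1 := hRS hi
    rw [mem_biUnion] at h1
    obtain ⟨g, hg, hig⟩ := h1
    have h2 : j ∈ E g := hCS j hj g hg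
    rw [hE, mem_filter] at h2
    exact (h2.2 i hig).le
  have hCc : γ ^ k * (η * N) ≤ C.card :=
    (mul_le_mul_of_nonneg_left hWcard (by positivity)).trans hSW
  have hCcn : γ ^ k * (η * N) * c' ^ n ≤ C.card * c' ^ n :=
    mul_le_mul_of_nonneg_right hCc (by positivity)
  have h := lc_cols hmeas hind b hRn (by omega) hsh0 hc'1 hpr (hbig.trans hCcn)
  refine le_trans ?_ h
  have h1 : (n : ℝ) ^ 2 / (C.card * c' ^ n) ≤
      (n : ℝ) ^ 2 / (γ ^ k * (η * N) * c' ^ n) :=
    div_le_div_of_nonneg_left (by positivity) (by positivity) hCcn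
  linarith

end Pool.Agent.LCB
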