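import Mathlib
import Pool.Agent.LCB.GenA
import Pool.Agent.LCB.GenB

/-!
# Rows repeated a bounded number of times
-/

namespace Pool.Agent.LCB

open Finset MeasureTheory ProbabilityTheory Filter Pool.Agent.Helper37.NoisyR
  Pool.Agent.Helper37.NoisyB

theorem lc_gen {m : ℕ} {s c β δ ε : ℝ} (hm : 1 ≤ m) (hs1 : s ≤ 1)
    (hc : 1 / 2 ≤ c) (hc1 : c ≤ 1) (h1 : c < (1 - s * (1 - c)) / 2 * β)
    (h2 : 1 < (1 - s * (1 - c)) / 2 * β ^ 2) (h3 : 1 < s / 2 * (c * β) ^ m) (hδ : 0 < δ)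
    (hε : 0 < ε) : ∀ᶠ n : ℕ in atTop, ∀ K N : ℕ, β ^ n ≤ N →
      (1 + δ) * (((m - 1 : ℕ) : ℝ) * K) ≤ N → HomT K ε N n := by
  classical
  have hc0 : 0 < c := by linarith
  set a : ℝ := (1 - s * (1 - c)) / 2 with ha
  have ha0 : 0 < a := by
    have : s * (1 - c) ≤ 1 * (1 / 2) :=
      mul_le_mul hs1 (by linarith) (by linarith) (by norm_num)
    rw [ha]
    linarith
  have hβ0 : 0 < β := by
    by_contra hcon
    push Not at hcon
    have := mul_nonpos_of_nonneg_of_nonpos ha0.le hcon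
    linarith
  have hcβ : 0 < c * β := by positivity
  have hs0 : 0 < s := by
    by_contra hcon
    push Not at hcon
    have h4 : s / 2 * (c * β) ^ m ≤ 0 :=
      mul_nonpos_of_nonpos_of_nonneg (by linarith) (by positivity)
    linarith
  have ha2 : a ≤ 1 / 2 := by
    have : 0 ≤ s * (1 - c) := mul_nonneg hs0.le (by linarith)
    rw [ha]
    linarith
  have hβ1 : 1 < β := by
    have h4 : a * β ≤ 1 / 2 * β := mul_le_mul_of_nonneg_right ha2 hβ0.le
    linarith
  -- the number t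
  have haβ : 0 < a * β := by positivity
  have haβ2 : 0 < a * β ^ 2 := by positivity
  set θ : ℝ := max (c / (a * β)) (1 / (a * β ^ 2)) with hθ
  have hθ0 : 0 < θ := lt_of_lt_of_le (by positivity) (le_max_left _ _)
  have hθ1 : θ < 1 := by
    refine max_lt ?_ ?_
    · rw [div_lt_one haβ]
      exact h1
    · rw [div_lt_one haβ2]
      exact h2
  set t : ℝ := Real.sqrt θ with ht
  have ht0 : 0 ≤ t := Real.sqrt_nonneg _
  have ht1 : t < 1 := by
    rw [ht, Real.sqrt_lt' one_pos]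
    linarith
  have ht2 : t ^ 2 = θ := Real.sq_sqrt hθ0.le
  have hA1 : c ≤ t ^ 2 * (a * β) := by
    rw [ht2, ← div_le_iff₀ haβ]
    exact le_max_left _ _
  have hA2 : 1 ≤ t ^ 2 * (a * β ^ 2) := by
    rw [ht2, ← div_le_iff₀ haβ2]
    exact le_max_right _ _
  -- the numbers γ, η
  have hpm : 0 < (c * β) ^ m := by positivity
  set γ : ℝ := (s / 2 + 1 / (c * β) ^ m) / 2 with hγ
  have hinv : 1 / (c * β) ^ m < s / 2 := by
    rw [div_lt_iff₀ hpm]
    exact h3
  have hinv0 : 0 < 1 / (c * β) ^ m := by positivity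
  have hγ1 : 1 / (c * β) ^ m < γ := by
    rw [hγ]
    linarith
  have hγ2 : γ < s / 2 := by
    rw [hγ]
    linarith
  have hγ0 : 0 < γ := hinv0.trans hγ1
  set η : ℝ := (s / 2 - γ) / 3 with hη
  have hη0 : 0 < η := by
    rw [hη]
    linarith
  have hγη : γ + 3 * η ≤ s / 2 := by
    rw [hη]
    linarith
  -- the rate
  set y : ℝ := γ * (c * β) ^ m with hy
  have hy1 : 1 < y := by
    rw [hy]
    rwa [div_lt_iff₀ hpm] at hγ1
  have hm0 : m ≠ 0 := by omega
  have hmpos : (0 : ℝ) < m := by exact_mod_cast hm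
  set ρ1 : ℝ := y ^ ((m : ℝ)⁻¹) with hρ1
  have hρ1m : ρ1 ^ m = y := Real.rpow_inv_natCast_pow (by linarith) hm0
  have hρ11 : 1 < ρ1 := Real.one_lt_rpow hy1 (by positivity)
  have hρ10 : 0 < ρ1 := by linarith
  set ρ0 : ℝ := ρ1 / (c * β) with hρ0
  have hρ00 : 0 < ρ0 := by positivity
  have hρ0m : ρ0 ^ m = γ := by
    rw [hρ0, div_pow, hρ1m, hy]
    field_simp
  have hρ01 : ρ0 ≤ 1 := by
    by_contra hcon
    push Not at hcon
    have h4 : 1 < ρ0 ^ m := one_lt_pow₀ hcon hm0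
    rw [hρ0m] at h4
    linarith
  have hρρ : ρ0 * (c * β) = ρ1 := by
    rw [hρ0]
    field_simp
  set κ : ℝ := γ * η / 3000 with hκ
  have hκ0 : 0 < κ := by positivity
  have hinv1 : ρ1⁻¹ < 1 := inv_lt_one_of_one_lt₀ hρ11
  have hβi : β⁻¹ < 1 := inv_lt_one_of_one_lt₀ hβ1
  set d : ℝ := δ / (1 + δ) with hd
  have hd0 : 0 < d := by positivity
  have hd1 : d ≤ 1 := by
    rw [hd, div_le_one (by positivity)]
    linarith
  -- eventual conditions
  have E1 : ∀ᶠ n : ℕ in atTop, (m : ℝ) / n ^ 3 ≤ η := by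
    have h1 : Tendsto (fun n : ℕ => (m : ℝ) * (1 / (n : ℝ)) ^ 3) atTop
        (nhds ((m : ℝ) * 0 ^ 3)) :=
      (tendsto_one_div_atTop_nhds_zero_nat.pow 3).const_mul _
    rw [zero_pow (by norm_num), mul_zero] at h1
    refine (h1.congr fun n => ?_).eventually_le_const hη0
    rw [div_pow, one_pow, mul_one_div]
  have E2 : ∀ᶠ n : ℕ in atTop, (n : ℝ) + 1 ≤ η * (d / m) * β ^ n := by
    have h1 := nr_lim (r := β⁻¹) (by positivity) hβi 1
    have h2 := nr_lim (r := β⁻¹) (by positivity) hβi 0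
    have h3 := h1.add h2
    rw [add_zero] at h3
    filter_upwards [h3.eventually_le_const (show (0 : ℝ) < η * (d / m) by positivity)]
      with n h4
    have hp : 0 < β ^ n := by positivity
    calc (n : ℝ) + 1 = ((n : ℝ) ^ 1 * β⁻¹ ^ n + (n : ℝ) ^ 0 * β⁻¹ ^ n) * β ^ n := by
          rw [inv_pow]
          field_simp
      _ ≤ _ := mul_le_mul_of_nonneg_right h4 hp.le
  have E3 : ∀ᶠ n : ℕ in atTop, 2 * ((n : ℝ) ^ 2 * d⁻¹ * t ^ n) ≤ 1 := by
    have h1 := (nr_lim ht0 ht1 2).const_mul (2 * d⁻¹)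
    rw [mul_zero] at h1
    refine (h1.congr fun n => ?_).eventually_le_const one_pos
    ring
  have E4 : ∀ᶠ n : ℕ in atTop,
      ((n : ℝ) + 1) ^ 2 * (2 * ((n : ℝ) ^ 2 * d⁻¹ * t ^ n)) ≤ ε := by
    have h1 := (nr_lim ht0 ht1 4).const_mul (2 * d⁻¹)
    have h2 := (nr_lim ht0 ht1 3).const_mul (4 * d⁻¹)
    have h3 := (nr_lim ht0 ht1 2).const_mul (2 * d⁻¹)
    have h7 := (h1.add h2).add h3
    simp only [mul_zero, add_zero] at h7
    refine (h7.congr fun n => ?_).eventually_le_const hε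
    ring
  have E5 : ∀ᶠ n : ℕ in atTop, 2 * ((n : ℝ) ^ 2 / (κ * ρ1 ^ n)) ≤ min ε 1 := by
    have h1 := (nr_lim (r := ρ1⁻¹) (by positivity) hinv1 2).const_mul (2 / κ)
    rw [mul_zero] at h1
    refine (h1.congr fun n => ?_).eventually_le_const (lt_min hε one_pos)
    rw [inv_pow]
    field_simp
  filter_upwards [E1, E2, E3, E4, E5, eventually_ge_atTop 8] with n E1 E2 E3 E4 E5 hn K N hN hKN
  intro Ω _ μ _ X hX
  have hn' : (8 : ℝ) ≤ n := by exact_mod_cast hn
  have hNpos : (0 : ℝ) < N := lt_of_lt_of_le (by positivity) hN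
  have hN0 : 0 < N := by exact_mod_cast hNpos
  obtain ⟨hmeas, hind, tp, p, hp⟩ := hX
  obtain ⟨G, hG1', hG2, hG3⟩ := lc_groups tp hm N (univ : Finset (Fin N))
    (by rw [card_univ, Fintype.card_fin])
  rw [card_univ, Fintype.card_fin] at hG3
  have hG1 : ∀ g ∈ G, g.card = m ∧ ∀ i ∈ g, ∀ i' ∈ g, tp i = tp i' := fun g hg => (hG1' g hg).2
  set V : Finset (Fin N) := G.biUnion id with hV
  have hVcard : V.card = m * G.card := by
    rw [hV, card_biUnion]
    · have h1 : ∀ g ∈ G, (id g).card = m := fun g hg => (hG1 g hg).1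
      rw [sum_congr rfl h1, sum_const, smul_eq_mul, mul_comm]
    · intro g hg g' hg' hne
      exact hG2 g hg g' hg' hne
  have hVN : d * N ≤ V.card := by
    have h4 : (N : ℝ) ≤ ((m - 1 : ℕ) : ℝ) * K + V.card := by
      rw [hVcard]
      exact_mod_cast hG3
    have h5 : ((m - 1 : ℕ) : ℝ) * K ≤ N / (1 + δ) := by
      rw [le_div_iff₀ (by positivity)]
      linarith
    have h6 : d * N = N - N / (1 + δ) := by
      rw [hd]
      field_simp
      ring
    linarith
  have hGcard : d / m * β ^ n ≤ G.card := by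
    have h4 : (V.card : ℝ) = m * G.card := by
      rw [hVcard]
      push_cast
      ring
    have h5 : d * β ^ n ≤ m * G.card := by
      rw [← h4]
      exact (mul_le_mul_of_nonneg_left hN hd0.le).trans hVN
    rw [div_mul_eq_mul_div, div_le_iff₀ hmpos]
    linarith
  have hGpos : 0 < G.card := by
    have h4 : (0 : ℝ) < G.card := lt_of_lt_of_le (by positivity) hGcard
    exact_mod_cast h4
  by_cases hT : ∑ i ∈ V, ((univ.filter fun j => c < pr μ (EX X) true (i, j)).card : ℝ) +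
      ∑ i ∈ V, ((univ.filter fun j => c < pr μ (EX X) false (i, j)).card : ℝ) ≤
      s * (V.card * N)
  · have h := lc_genA (V := V) hs1 (by omega : 1 ≤ n) hc hc1 hβ0 ht0 ht1.le hA1 hA2 hd0 hd1 hN E3
      hVN hmeas hind hT
    have hx0 : 0 ≤ (n : ℝ) ^ 2 * d⁻¹ * t ^ n := by positivity
    have hx2 : ((n : ℝ) ^ 2 * d⁻¹ * t ^ n) ^ 2 ≤ (n : ℝ) ^ 2 * d⁻¹ * t ^ n := by
      rw [sq]
      exact mul_le_of_le_one_left hx0 (by linarith)
    have h4 : ((n : ℝ) + 1) ^ 2 * (2 * ((n : ℝ) ^ 2 * d⁻¹ * t ^ n) ^ 2) ≤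
        ((n : ℝ) + 1) ^ 2 * (2 * ((n : ℝ) ^ 2 * d⁻¹ * t ^ n)) :=
      mul_le_mul_of_nonneg_left (mul_le_mul_of_nonneg_left hx2 (by norm_num)) (by positivity)
    linarith
  · rw [not_le] at hT
    obtain ⟨b, hb⟩ : ∃ b, s / 2 * ((V.card : ℝ) * N) ≤
        ∑ i ∈ V, ((univ.filter fun j => c < pr μ (EX X) b (i, j)).card : ℝ) := by
      by_contra hcon
      push Not at hcon
      have h1 := hcon true
      have h2 := hcon false
      linarith
    have hbad := lc_bad hmeas hp b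
    have hkN : ((n / m + 1 : ℕ) : ℝ) ≤ η * G.card := by
      have h1 : n / m + 1 ≤ n + 1 := by
        have := Nat.div_le_self n m
        omega
      have h2 : ((n / m + 1 : ℕ) : ℝ) ≤ n + 1 := by exact_mod_cast h1
      refine h2.trans (E2.trans ?_)
      rw [mul_assoc]
      exact mul_le_mul_of_nonneg_left hGcard hη0.le
    obtain ⟨hsh0, hsh⟩ := lc_shift hn hc
    have hQ : κ * ρ1 ^ n ≤ γ ^ (n / m + 1) * (η * N) * (c - 2 / n) ^ n := by
      have h1 : ρ0 ^ n ≤ γ ^ (n / m) := by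
        calc ρ0 ^ n ≤ ρ0 ^ (m * (n / m)) :=
              pow_le_pow_of_le_one hρ00.le hρ01 (Nat.mul_div_le n m)
          _ = _ := by rw [pow_mul, hρ0m]
      have h2 : c ^ n / 3000 ≤ (c - 2 / n) ^ n := by
        rw [div_le_iff₀ (by norm_num)]
        linarith
      calc κ * ρ1 ^ n = (γ * ρ0 ^ n) * (η * β ^ n) * (c ^ n / 3000) := by
            rw [← hρρ, mul_pow, mul_pow, hκ]
            ring
        _ ≤ (γ * γ ^ (n / m)) * (η * N) * (c - 2 / n) ^ n := by
            refine mul_le_mul ?_ h2 (by positivity) (by positivity)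
            refine mul_le_mul ?_ ?_ (by positivity) (by positivity)
            · exact mul_le_mul_of_nonneg_left h1 hγ0.le
            · exact mul_le_mul_of_nonneg_left hN hη0.le
        _ = _ := by
            rw [pow_succ γ (n / m)]
            ring
    have hκρ : 0 < κ * ρ1 ^ n := by positivity
    have hE5 := min_le_left ε 1
    have hE5' := min_le_right ε 1
    have hn2 : (n : ℝ) ^ 2 ≤ κ * ρ1 ^ n := by
      have h1 : (n : ℝ) ^ 2 / (κ * ρ1 ^ n) ≤ 1 := by
        have : 0 ≤ (n : ℝ) ^ 2 / (κ * ρ1 ^ n) := by positivity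
        linarith
      rwa [div_le_one hκρ] at h1
    have h := lc_genB hm hγ0 hη0 hγη hn hc hc1 hN0 E1 hmeas hind b hbad hG1 hG2 hGpos hkN hb
      (hn2.trans hQ)
    have h1 : (n : ℝ) ^ 2 / (γ ^ (n / m + 1) * (η * N) * (c - 2 / n) ^ n) ≤
        (n : ℝ) ^ 2 / (κ * ρ1 ^ n) := div_le_div_of_nonneg_left (by positivity) hκρ hQ
    linarith

end Pool.Agent.LCB
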