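import Mathlib
import Pool.Agent.LCB.Gen

/-!
# Rows repeated a bounded number of times
-/

namespace Pool.Agent.LCB

open Filter

/-- The general bound with an integer constant. -/
theorem lc_const1 {ε : ℝ} (hε : 0 < ε) (hε1 : ε ≤ 1) : ∃ D : ℕ, ∀ᶠ n : ℕ in atTop,
    ∀ K N : ℕ, (Real.sqrt 2 + ε) ^ n ≤ N → D * K ≤ N → HomT K ε N n := by
  have hs2 : 0 < Real.sqrt 2 := Real.sqrt_pos.2 (by norm_num)
  have hs2' : Real.sqrt 2 * Real.sqrt 2 = 2 := Real.mul_self_sqrt (by norm_num)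
  have hs21 : 7 / 5 ≤ Real.sqrt 2 := by
    rw [Real.le_sqrt' (by norm_num)]
    norm_num
  have hs22 : Real.sqrt 2 ≤ 3 / 2 := by
    rw [Real.sqrt_le_left (by norm_num)]
    norm_num
  set β : ℝ := Real.sqrt 2 + ε with hβ
  have hden : 0 < Real.sqrt 2 + ε / 4 := by positivity
  set c : ℝ := 1 / (Real.sqrt 2 + ε / 4) with hc
  have hc12 : 1 / 2 ≤ c := by
    rw [hc]
    exact one_div_le_one_div_of_le hden (by linarith)
  have hc1 : c ≤ 1 := by
    rw [hc, div_le_one hden]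
    linarith
  have hc0 : 0 < c := by linarith
  have hprod : c * (Real.sqrt 2 + ε / 4) = 1 := by
    rw [hc]
    field_simp
  have hcβ : 1 < c * β := by
    rw [hβ]
    nlinarith
  have hquad : 2 + 7 / 4 * ε ≤ β * (Real.sqrt 2 + ε / 4) := by
    rw [hβ]
    nlinarith [mul_pos hε hε]
  have ha : 1 - ε / 4 ≤ 1 - ε / 2 * (1 - c) := by nlinarith
  have h1 : c < (1 - ε / 2 * (1 - c)) / 2 * β := by
    have h3 : 0 < β := by positivity
    have h4 : (1 - ε / 4) / 2 * β ≤ (1 - ε / 2 * (1 - c)) / 2 * β :=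
      mul_le_mul_of_nonneg_right (by linarith) h3.le
    refine lt_of_lt_of_le ?_ h4
    have h5 : c * (2 + 7 / 4 * ε) ≤ β := by
      calc c * (2 + 7 / 4 * ε) ≤ c * (β * (Real.sqrt 2 + ε / 4)) :=
            mul_le_mul_of_nonneg_left hquad hc0.le
        _ = β * (c * (Real.sqrt 2 + ε / 4)) := by ring
        _ = β := by rw [hprod, mul_one]
    have h6 : (1 - ε / 4) / 2 * (c * (2 + 7 / 4 * ε)) ≤ (1 - ε / 4) / 2 * β :=
      mul_le_mul_of_nonneg_left h5 (by linarith)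
    refine lt_of_lt_of_le ?_ h6
    have h7 : (1 - ε / 4) / 2 * (c * (2 + 7 / 4 * ε)) =
        c * (1 + ε * (5 / 8 - 7 / 32 * ε)) := by ring
    rw [h7]
    have h8 : 0 < ε * (5 / 8 - 7 / 32 * ε) := mul_pos hε (by linarith)
    nlinarith
  have h2 : 1 < (1 - ε / 2 * (1 - c)) / 2 * β ^ 2 := by
    have h4 : (1 - ε / 4) / 2 * β ^ 2 ≤ (1 - ε / 2 * (1 - c)) / 2 * β ^ 2 :=
      mul_le_mul_of_nonneg_right (by linarith) (by positivity)
    refine lt_of_lt_of_le ?_ h4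
    have h5 : 2 + 2 * ε ≤ β ^ 2 := by
      rw [hβ]
      nlinarith [mul_pos hε hε]
    have h6 : (1 - ε / 4) / 2 * (2 + 2 * ε) ≤ (1 - ε / 4) / 2 * β ^ 2 :=
      mul_le_mul_of_nonneg_left h5 (by linarith)
    nlinarith
  obtain ⟨m0, hm0⟩ := pow_unbounded_of_one_lt (4 / ε) hcβ
  have h3 : 1 < ε / 2 / 2 * (c * β) ^ (m0 + 1) := by
    have h4 : (c * β) ^ m0 ≤ (c * β) ^ (m0 + 1) := pow_le_pow_right₀ hcβ.le (by omega)
    have h5 : 4 / ε < (c * β) ^ (m0 + 1) := lt_of_lt_of_le hm0 h4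
    rw [div_lt_iff₀ hε] at h5
    linarith
  have h := lc_gen (m := m0 + 1) (s := ε / 2) (c := c) (β := β) (δ := 1) (ε := ε) (by omega)
    (by linarith) hc12 hc1 h1 h2 h3 one_pos hε
  refine ⟨2 * m0, ?_⟩
  filter_upwards [h] with n h K N hN hK
  refine h K N hN ?_
  have h4 : ((2 * m0 : ℕ) : ℝ) * K ≤ N := by exact_mod_cast hK
  push_cast at h4
  have h5 : ((m0 + 1 - 1 : ℕ) : ℝ) = m0 := by
    rw [Nat.add_sub_cancel]
  rw [h5]
  linarith

/-- **Rows repeated a bounded number of times.** -/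
theorem lc_const {ε : ℝ} (hε : 0 < ε) : ∃ D : ℕ, ∀ᶠ n : ℕ in atTop,
    ∀ K N : ℕ, (Real.sqrt 2 + ε) ^ n ≤ N → D * K ≤ N → HomT K ε N n := by
  obtain ⟨D, hD⟩ := lc_const1 (ε := min ε 1) (lt_min hε one_pos) (min_le_right _ _)
  refine ⟨D, ?_⟩
  filter_upwards [hD] with n h K N hN hDK
  have hs2 : 0 < Real.sqrt 2 := Real.sqrt_pos.2 (by norm_num)
  have h0 : 0 < min ε 1 := lt_min hε one_pos
  have h1 := h K N (le_trans (pow_le_pow_left₀ (by positivity)
    (by linarith [min_le_left ε 1]) n) hN) hDK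
  intro Ω _ μ _ X hX
  have h2 := h1 Ω μ X hX
  have h3 := min_le_left ε 1
  linarith

/-- **A positive proportion of repeated rows.** -/
theorem lc_pairs {ε : ℝ} (hε : 0 < ε) : ∀ᶠ n : ℕ in atTop,
    ∀ K N : ℕ, (48 / 25 : ℝ) ^ n ≤ N → (1 + ε) * (K : ℝ) ≤ N → HomT K ε N n := by
  have h := lc_gen (m := 2) (s := 96 / 125) (c := 421 / 500) (β := 48 / 25) (δ := ε) (ε := ε)
    (by norm_num) (by norm_num) (by norm_num) (by norm_num) (by norm_num) (by norm_num)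
    (by norm_num) hε hε
  filter_upwards [h] with n h K N hN hK
  refine h K N hN ?_
  have h5 : ((2 - 1 : ℕ) : ℝ) = 1 := by norm_num
  rw [h5, one_mul]
  exact hK

end Pool.Agent.LCB
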