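import Mathlib
import Pool.Agent.Helper37.NoisyB.Final
import Pool.Agent.Helper48.BipFinal
import Pool.Agent.LCB.Const

/-!
# Lower bound, limit, many types
-/

namespace Pool.Agent.LCB

open Finset MeasureTheory ProbabilityTheory Filter Pool.Agent.Helper37.NoisyR
  Pool.Agent.Helper37.NoisyB

theorem lc_unif_typed {N K n : ℕ} (hK : 1 ≤ K) :
    IsTyped K n (muM N) (fun ω i j => ω (i, j)) := by
  have hval : ∀ i j : Fin N, (muM N).real {ω | ω (i, j) = true} = 1 / 2 := by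
    intro i j
    rw [Measure.real, nb_muM_event, ENNReal.toReal_ofReal (by norm_num)]
  refine ⟨fun i j => MeasurableSet.of_discrete, nb_muM_indep N, fun _ => ⟨0, hK⟩,
    fun _ _ => 1 / 2, fun i => ?_⟩
  have h1 : IsEmpty {j : Fin N // 1 / (n : ℝ) <
      |(muM N).real {ω | (fun (ω : Fin N × Fin N → Bool) i j => ω (i, j)) ω i j = true} -
        1 / 2|} := by
    refine ⟨fun j => ?_⟩
    have h2 := j.2
    have h3 := hval i j.1
    simp only at h2
    rw [h3, sub_self, abs_zero] at h2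
    have h4 : (0 : ℝ) ≤ 1 / n := by positivity
    linarith
  rw [Nat.card_of_isEmpty, mul_zero]
  exact Nat.zero_le _

/-- Below the first moment threshold. -/
theorem lc_lower {ε : ℝ} (hε : 0 < ε) (hε1 : ε < 1) :
    ∀ᶠ n : ℕ in atTop, ∀ K : ℕ, 1 ≤ K → ∀ N : ℕ,
      (N : ℝ) ≤ (1 - ε) * (n / Real.exp 1) * Real.sqrt 2 ^ n → ¬ HomT K (1 / 2) N n := by
  have h1 : ∀ᶠ n : ℕ in atTop, (1 - ε) ^ n < 1 / 4 :=
    (tendsto_pow_atTop_nhds_zero_of_lt_one (by linarith) (by linarith)).eventually_lt_const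
      (by norm_num)
  filter_upwards [h1, eventually_ge_atTop 1] with n h1 hn K hK N hN hcon
  have hn' : (0 : ℝ) < n := by exact_mod_cast hn
  have hs2 : 0 < Real.sqrt 2 := Real.sqrt_pos.2 (by norm_num)
  have := nb_muM_prob N
  have h2 := hcon _ (muM N) _ (lc_unif_typed hK)
  have h3 : (muM N).real {ω | HasRect (fun i j => ω (i, j)) n} ≤
      2 * ((N : ℝ) * (Real.exp 1 / n) / Real.sqrt 2 ^ n) ^ (2 * n) := nb_first_moment N n
  have h4 : (N : ℝ) * (Real.exp 1 / n) / Real.sqrt 2 ^ n ≤ 1 - ε := by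
    rw [div_le_iff₀ (by positivity)]
    calc (N : ℝ) * (Real.exp 1 / n)
        ≤ ((1 - ε) * (n / Real.exp 1) * Real.sqrt 2 ^ n) * (Real.exp 1 / n) :=
          mul_le_mul_of_nonneg_right hN (by positivity)
      _ = (1 - ε) * Real.sqrt 2 ^ n := by
          field_simp
  have h5 : ((N : ℝ) * (Real.exp 1 / n) / Real.sqrt 2 ^ n) ^ (2 * n) ≤ (1 - ε) ^ n := by
    calc ((N : ℝ) * (Real.exp 1 / n) / Real.sqrt 2 ^ n) ^ (2 * n)
        ≤ (1 - ε) ^ (2 * n) := pow_le_pow_left₀ (by positivity) h4 _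
      _ ≤ (1 - ε) ^ n := pow_le_pow_of_le_one (by linarith) (by linarith) (by omega)
  linarith

/-- **The limit.** -/
theorem lc_limit (K : ℕ → ℕ) (hK : ∀ᶠ n : ℕ in atTop, 1 ≤ K n)
    (hK2 : ∀ᶠ n : ℕ in atTop, (n : ℝ) ^ 18 * K n ≤ (2 : ℝ) ^ ((n : ℝ) / 2)) :
    Tendsto (fun n : ℕ => (FT (K n) n : ℝ) / (n * (2 : ℝ) ^ ((n : ℝ) / 2))) atTop
      (nhds (1 / Real.exp 1)) := by
  have hs2 : 0 < Real.sqrt 2 := Real.sqrt_pos.2 (by norm_num)
  have he := Real.exp_pos 1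
  rw [Metric.tendsto_atTop]
  intro ε hε
  set d : ℝ := min (ε / 2) (1 / 2) with hd
  have hd0 : 0 < d := lt_min (by positivity) (by norm_num)
  have hd1 : d ≤ 1 / 2 := min_le_right _ _
  have hd2 : d ≤ ε / 2 := min_le_left _ _
  set d1 : ℝ := d / 4 with hd1'
  have hd10 : 0 < d1 := by positivity
  have h1 : ∀ᶠ n : ℕ in atTop, 1 ≤ d1 * ((n : ℝ) / Real.exp 1) := by
    have h2 : Tendsto (fun n : ℕ => d1 * ((n : ℝ) / Real.exp 1)) atTop atTop := by
      refine Tendsto.const_mul_atTop hd10 ?_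
      exact (tendsto_natCast_atTop_atTop).atTop_div_const he
    exact h2.eventually_ge_atTop 1
  have h3 := (lc_hom hd10).and ((lc_lower hd0 (by linarith)).and
    (h1.and (hK2.and (hK.and (eventually_ge_atTop 3)))))
  obtain ⟨n0, hn0⟩ := eventually_atTop.1 h3
  refine ⟨n0, fun n hn => ?_⟩
  obtain ⟨hA, hL, h1, hK3, hK4, hn1⟩ := hn0 n hn
  have hn' : (3 : ℝ) ≤ n := by exact_mod_cast hn1
  have hpow : (2 : ℝ) ^ ((n : ℝ) / 2) = Real.sqrt 2 ^ n := by
    rw [Real.sqrt_eq_rpow, ← Real.rpow_natCast, ← Real.rpow_mul (by norm_num)]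
    congr 1
    ring
  set X : ℝ := ((n : ℝ) / Real.exp 1) * Real.sqrt 2 ^ n with hX
  have hX0 : 0 < X := by positivity
  have hs1 : (1 : ℝ) ≤ Real.sqrt 2 := by
    rw [Real.one_le_sqrt]
    norm_num
  have hXe : 1 ≤ d1 * X := by
    have h5 : (1 : ℝ) ≤ Real.sqrt 2 ^ n := one_le_pow₀ hs1
    calc (1 : ℝ) ≤ d1 * ((n : ℝ) / Real.exp 1) := h1
      _ ≤ d1 * ((n : ℝ) / Real.exp 1) * Real.sqrt 2 ^ n :=
          le_mul_of_one_le_right (by positivity) h5
      _ = _ := by rw [hX]; ring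
  have hKX : ((n : ℝ) ^ 18 * K n : ℝ) ≤ X := by
    refine hK3.trans ?_
    rw [hpow, hX]
    have h5 := Real.exp_one_lt_d9
    refine le_mul_of_one_le_left (by positivity) ?_
    rw [one_le_div he]
    linarith
  set N : ℕ := ⌈(1 + d1) * X⌉₊ with hN
  have hNX : (1 + d1) * X ≤ N := Nat.le_ceil _
  have hHom : HomT (K n) (1 / 2) N n := by
    have h5 := hA (K n) N (by
      refine le_trans (le_of_eq ?_) hNX
      rw [hX]
      ring) (by
      have h6 : ((n ^ 18 * K n : ℕ) : ℝ) ≤ N := by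
        push_cast
        nlinarith
      exact_mod_cast h6)
    intro Ω _ μ _ M hM
    have := h5 Ω μ M hM
    linarith
  have hRN : FT (K n) n ≤ N := Nat.sInf_le hHom
  have hmem : HomT (K n) (1 / 2) (FT (K n) n) n :=
    Nat.sInf_mem (s := {N : ℕ | HomT (K n) (1 / 2) N n}) ⟨N, hHom⟩
  have hlow : (1 - d) * X ≤ (FT (K n) n : ℝ) := by
    by_contra hcon
    push Not at hcon
    refine hL (K n) hK4 _ ?_ hmem
    rw [mul_assoc]
    exact hcon.le
  have hup : (FT (K n) n : ℝ) ≤ (1 + d) * X := by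
    have h6 : (FT (K n) n : ℝ) ≤ N := by exact_mod_cast hRN
    have h7 : (N : ℝ) < (1 + d1) * X + 1 := Nat.ceil_lt_add_one (by positivity)
    have h8 : (1 + d1) * X + 1 ≤ (1 + d) * X := by
      have : d1 * X + d1 * X ≤ d * X := by
        rw [hd1']
        nlinarith
      linarith
    linarith
  rw [hpow, Real.dist_eq, abs_lt]
  have hY : (n : ℝ) * Real.sqrt 2 ^ n = X * Real.exp 1 := by
    rw [hX]
    field_simp
  have hY0 : 0 < (n : ℝ) * Real.sqrt 2 ^ n := by positivity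
  have he1 : 1 / Real.exp 1 ≤ 1 := by
    rw [div_le_one he]
    exact Real.one_le_exp zero_le_one
  have h10 : (1 - d) * (1 / Real.exp 1) ≤ (FT (K n) n : ℝ) / (n * Real.sqrt 2 ^ n) := by
    rw [le_div_iff₀ hY0, hY]
    refine le_trans (le_of_eq ?_) hlow
    field_simp
  have h11 : (FT (K n) n : ℝ) / (n * Real.sqrt 2 ^ n) ≤ (1 + d) * (1 / Real.exp 1) := by
    rw [div_le_iff₀ hY0, hY]
    refine hup.trans (le_of_eq ?_)
    field_simp
  constructor
  · nlinarith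
  · nlinarith

/-- A fixed matrix is typed as soon as there are at least `N` types. -/
theorem lc_dirac_typed {N K n : ℕ} (hK : N ≤ K) (A : Fin N → Fin N → Bool) :
    IsTyped K n (Measure.dirac () : Measure Unit) (fun _ => A) := by
  have h := nb_dirac_noisy A
  refine ⟨h.meas, h.indep, fun i => Fin.castLE hK i, fun k j =>
    (Measure.dirac () : Measure Unit).real {ω | (∃ h : k.val < N, A ⟨k.val, h⟩ j = true)},
    fun i => ?_⟩
  have h1 : IsEmpty {j : Fin N // 1 / (n : ℝ) <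
      |(Measure.dirac () : Measure Unit).real {ω | (fun _ : Unit => A) ω i j = true} -
        (Measure.dirac () : Measure Unit).real {ω | (∃ h : (Fin.castLE hK i).val < N,
          A ⟨(Fin.castLE hK i).val, h⟩ j = true)}|} := by
    refine ⟨fun j => ?_⟩
    have h2 := j.2
    have h3 : {ω : Unit | (fun _ : Unit => A) ω i j.1 = true} =
        {ω : Unit | (∃ h : (Fin.castLE hK i).val < N,
          A ⟨(Fin.castLE hK i).val, h⟩ j.1 = true)} := by
      ext ω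
      simp
    rw [h3, sub_self, abs_zero] at h2
    have h4 : (0 : ℝ) ≤ 1 / n := by positivity
    linarith
  rw [Nat.card_of_isEmpty, mul_zero]
  exact Nat.zero_le _

theorem lc_hom_of_all {K n N : ℕ} (h : ∀ A : Fin N → Fin N → Bool, HasRect A n) :
    HomT K (1 / 2) N n := by
  intro Ω _ μ _ M _
  have h2 : {ω | HasRect (M ω) n} = Set.univ := by
    ext ω
    simp only [Set.mem_ofPred_eq, Set.mem_univ, iff_true]
    exact h (M ω)
  rw [h2, probReal_univ]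
  norm_num

theorem lc_all_of_hom {K n N : ℕ} (hK : N ≤ K) (h : HomT K (1 / 2) N n) :
    ∀ A : Fin N → Fin N → Bool, HasRect A n := by
  intro A
  have h1 := h Unit (Measure.dirac ()) (fun _ => A) (lc_dirac_typed hK A)
  by_contra hcon
  have h2 : {ω : Unit | HasRect ((fun _ => A) ω) n} = ∅ := by
    ext ω
    simp only [Set.mem_ofPred_eq, Set.mem_empty_iff_false, iff_false]
    exact hcon
  rw [h2, measureReal_empty] at h1
  norm_num at h1

theorem lc_F_mem (n : ℕ) : ∀ A : Fin (F n) → Fin (F n) → Bool, HasRect A n := by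
  have h : (2 ^ (n + 9)) ∈ {N : ℕ | ∀ A : Fin N → Fin N → Bool, HasRect A n} := by
    intro A
    rcases Pool.Agent.Helper48.Bip.ramsey le_rfl (fun i j => A i j = true) with h | h
    · obtain ⟨R, C, hR, hC, hRC⟩ := h
      exact ⟨R, C, hR, hC, true, hRC⟩
    · obtain ⟨R, C, hR, hC, hRC⟩ := h
      refine ⟨R, C, hR, hC, false, fun i hi j hj => ?_⟩
      have := hRC i hi j hj
      simpa using this
  exact Nat.sInf_mem (s := {N : ℕ | ∀ A : Fin N → Fin N → Bool, HasRect A n}) ⟨_, h⟩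

/-- At least `F n` types: the deterministic problem. -/
theorem lc_FT_eq {n K : ℕ} (hK : F n ≤ K) : FT K n = F n := by
  have h1 : HomT K (1 / 2) (F n) n := lc_hom_of_all (lc_F_mem n)
  have h2 : FT K n ≤ F n := Nat.sInf_le h1
  have h3 : HomT K (1 / 2) (FT K n) n :=
    Nat.sInf_mem (s := {N : ℕ | HomT K (1 / 2) N n}) ⟨_, h1⟩
  have h4 : F n ≤ FT K n := Nat.sInf_le (lc_all_of_hom (h2.trans hK) h3)
  exact le_antisymm h2 h4

theorem lc_FT_gt {n K : ℕ} (hK : K < F n) : K < FT K n := by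
  have h1 : HomT K (1 / 2) (F n) n := lc_hom_of_all (lc_F_mem n)
  have h3 : HomT K (1 / 2) (FT K n) n :=
    Nat.sInf_mem (s := {N : ℕ | HomT K (1 / 2) N n}) ⟨_, h1⟩
  by_contra hcon
  push Not at hcon
  have h4 : F n ≤ FT K n := Nat.sInf_le (lc_all_of_hom hcon h3)
  omega

theorem lc_FT_hom (K n : ℕ) : HomT K (1 / 2) (FT K n) n :=
  Nat.sInf_mem (s := {N : ℕ | HomT K (1 / 2) N n}) ⟨_, lc_hom_of_all (lc_F_mem n)⟩

theorem lc_FT_le_of {K n : ℕ} {A B η : ℝ} (hA : 0 ≤ A) (hη : η ≤ 1 / 2)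
    (h : ∀ N : ℕ, A ≤ N → B ≤ N → HomT K η N n) : (FT K n : ℝ) ≤ max A B + 1 := by
  set Y : ℝ := max A B with hY
  have hY0 : 0 ≤ Y := hA.trans (le_max_left _ _)
  have h1 : Y ≤ (⌈Y⌉₊ : ℝ) := Nat.le_ceil _
  have h2 := h ⌈Y⌉₊ ((le_max_left _ _).trans h1) ((le_max_right _ _).trans h1)
  have h3 : HomT K (1 / 2) ⌈Y⌉₊ n := by
    intro Ω _ μ _ M hM
    have := h2 Ω μ M hM
    linarith
  have h4 : FT K n ≤ ⌈Y⌉₊ := Nat.sInf_le h3
  have h5 : (FT K n : ℝ) ≤ ⌈Y⌉₊ := by exact_mod_cast h4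
  have h6 := Nat.ceil_lt_add_one hY0
  linarith

/-- Two-sided bounds for all numbers of types. -/
theorem lc_two_sided {ε : ℝ} (hε : 0 < ε) (hε1 : ε ≤ 1 / 2) : ∃ D : ℕ, ∀ᶠ n : ℕ in atTop,
    ∀ K : ℕ, 1 ≤ K → (1 - ε) * (n / Real.exp 1) * Real.sqrt 2 ^ n ≤ FT K n ∧
      (FT K n : ℝ) ≤ max ((1 + ε) * (n / Real.exp 1) * Real.sqrt 2 ^ n) ((n : ℝ) ^ 18 * K) + 1 ∧
      (FT K n : ℝ) ≤ max ((Real.sqrt 2 + ε) ^ n) (D * K) + 1 ∧
      (FT K n : ℝ) ≤ max ((48 / 25) ^ n) ((1 + ε) * K) + 1 := by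
  obtain ⟨D, hD⟩ := lc_const hε
  refine ⟨D, ?_⟩
  filter_upwards [hD, lc_hom hε, lc_lower hε (by linarith), lc_pairs hε] with n h1 h2 h3 h4 K hK
  have hs2 : 0 < Real.sqrt 2 := Real.sqrt_pos.2 (by norm_num)
  refine ⟨?_, ?_, ?_, ?_⟩
  · by_contra hcon
    push Not at hcon
    exact h3 K hK _ hcon.le (lc_FT_hom K n)
  · refine lc_FT_le_of (by positivity) hε1 fun N hA hB => h2 K N hA ?_
    exact_mod_cast hB
  · refine lc_FT_le_of (by positivity) hε1 fun N hA hB => h1 K N hA ?_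
    exact_mod_cast hB
  · exact lc_FT_le_of (by positivity) hε1 fun N hA hB => h4 K N hA hB

theorem lc_whp {ε : ℝ} (hε : 0 < ε) : ∃ D : ℕ, ∀ᶠ n : ℕ in atTop, ∀ K N : ℕ,
    ((1 + ε) * (n / Real.exp 1) * Real.sqrt 2 ^ n ≤ N ∧ n ^ 18 * K ≤ N) ∨
    ((Real.sqrt 2 + ε) ^ n ≤ N ∧ D * K ≤ N) ∨
    ((48 / 25 : ℝ) ^ n ≤ N ∧ (1 + ε) * (K : ℝ) ≤ N) → HomT K ε N n := by
  obtain ⟨D, hD⟩ := lc_const hε
  refine ⟨D, ?_⟩
  filter_upwards [hD, lc_hom hε, lc_pairs hε] with n h1 h2 h4 K N h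
  rcases h with h | h | h
  · exact h2 K N h.1 h.2
  · exact h1 K N h.1 h.2
  · exact h4 K N h.1 h.2

end Pool.Agent.LCB
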